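import Pool.Agent.P.MP_940262_co.Three

/-! The asymptotically optimal critical graphs for every `k`. -/

namespace Pool.Agent.P.MP_940262_co

open SimpleGraph Finset

variable {r N : ℕ} {c : ℝ}

lemma Blk.of_far {d e D M L : ℕ} {V W : Type} {G : SimpleGraph V} {H : SimpleGraph W}
    {J : SimpleGraph (V × W)} (a : Blk r d G M) (b : Blk r e H L) (h : ∀ p q, J.edist p q ≤ D)
    (k : ∀ p q, J.edist p q = D ↔ G.edist p.1 q.1 = d ∧ H.edist p.2 q.2 = e) :
    Blk r D J (M * L) := by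
  have j : ∀ p q, J.edist p q = D ↔ (G □ H).edist p q = (d + e : ℕ) := fun p q => by
    rw [k, edist_boxProd, add_eq_iff (a.diam _ _) (b.diam _ _)]
  have g := a.prod b
  exact ⟨h, by simpa only [j] using g.all, by simpa only [j] using g.one,
    by simpa only [j] using g.deg⟩

lemma sizes (hr : 2 ≤ r) (hc : 1 < c) (m : ℕ) : ∃ N : ℕ, ∀ n M : ℕ, N ≤ n →
    (M : ℝ) ≤ c * (n : ℝ) ^ (1 - 1 / r : ℝ) → ∃ t : ℕ, 2 ^ m * n < t ^ (r + 1) ∧
      (m + 1) * (t * M + 1 + m * (M + 1)) + m * M ≤ n := by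
  obtain ⟨D, hD⟩ : ∃ D : ℝ, D = (m + 1) * (c + 1) := ⟨_, rfl⟩
  have d0 : 0 < D := by rw [hD]; positivity
  obtain ⟨N, h⟩ := large (β := 1 / r) (by positivity) (2 ^ m * (4 * D) ^ (r + 1) + 2 * D * (m + 2))
  refine ⟨N + 1, fun n M hn hM => ?_⟩
  have h1 := h n (by omega)
  have u1 : 1 ≤ (n : ℝ) ^ (1 / r : ℝ) :=
    Real.one_le_rpow (by exact_mod_cast (by omega)) (by positivity)
  have e : ((n : ℝ) ^ (1 / r : ℝ)) ^ r = n := by
    rw [one_div, Real.rpow_inv_natCast_pow (by positivity) (by omega)]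
  generalize (n : ℝ) ^ (1 / r : ℝ) = u at *
  rw [← e, rpow_expo hr (by positivity)] at hM
  have p1 : 1 ≤ u ^ (r - 1) := one_le_pow₀ u1
  have a : (0 : ℝ) < 2 ^ m * (4 * D) ^ (r + 1) := by positivity
  have m0 : (0 : ℝ) ≤ m := by positivity
  have t1 : (⌊u / (2 * D)⌋₊ : ℝ) * (2 * D) ≤ u :=
    (le_div_iff₀ (by positivity)).1 (Nat.floor_le (by positivity))
  have t2 : u < (⌊u / (2 * D)⌋₊ + 1 : ℝ) * (2 * D) :=
    (div_lt_iff₀ (by positivity)).1 (Nat.lt_floor_add_one _)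
  generalize ⌊u / (2 * D)⌋₊ = t at *
  refine ⟨t, ?_, ?_⟩
  · have b : u ^ (r + 1) ≤ (4 * D) ^ (r + 1) * t ^ (r + 1) := by
      rw [← mul_pow]
      exact pow_le_pow_left₀ (by positivity) (by nlinarith) _
    rw [pow_succ u, e] at b
    have n0 : (0 : ℝ) < n := by exact_mod_cast (by omega)
    have : (4 * D) ^ (r + 1) * (2 ^ m * n) < (4 * D) ^ (r + 1) * t ^ (r + 1) := by
      nlinarith [mul_pos n0 (show 0 < u - 2 ^ m * (4 * D) ^ (r + 1) by nlinarith)]
    exact_mod_cast lt_of_mul_lt_mul_left this (by positivity)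
  · rw [← Nat.sub_add_cancel (show 1 ≤ r by omega), pow_succ] at e
    have b : (m + 1 : ℝ) * (t + m + 2) * (M + 1) ≤ n := calc
      _ ≤ (m + 1 : ℝ) * (t + m + 2) * ((c + 1) * u ^ (r - 1)) := by gcongr; linarith
      _ = u ^ (r - 1) * (D * (t + m + 2)) := by rw [hD]; ring
      _ ≤ u ^ (r - 1) * u := by gcongr; nlinarith
      _ = n := e
    have : (m + 1) * (t + m + 2) * (M + 1) ≤ n := by exact_mod_cast b
    nlinarith [Nat.zero_le (m * M), Nat.zero_le (m * t), Nat.zero_le (m * m)]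

lemma has_blocks (hr : 2 ≤ r) (hc : 1 < c) (A : Type) [Fintype A] [Nonempty A] (N : ℕ) :
    ∃ (V : Type) (_ : Finite V) (G : SimpleGraph V) (M : ℕ), Blk r 2 G M ∧ N ≤ Nat.card V ∧
      (M : ℝ) ≤ c * (Nat.card V : ℝ) ^ (1 - 1 / r : ℝ) ∧ ∃ (b : V → Finset V) (l : V → A),
        (∀ x y, b x = b y → ¬ G.edist x y = (2 : ℕ)) ∧
        (∀ x y, {u | b u = b x ∧ G.edist u y = (2 : ℕ)}.ncard ≤ r + 1) ∧
        ∀ x j, ∃ u, b u = b x ∧ l u = j := by
  classical
  obtain ⟨L, h⟩ := sizes hr hc (Fintype.card A)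
  obtain ⟨V, _, G, M, a1, a2, a3⟩ := has_two hr hc (N + L)
  have := Fintype.ofFinite V
  obtain ⟨t, t1, t2⟩ := h _ M (by omega) a3
  rw [Nat.card_eq_fintype_card] at t1 t2
  obtain ⟨b, l, h⟩ := exists_blocks (F := fun x y => G.edist x y = (2 : ℕ))
    (fun x y e => edist_comm.trans e) (fun x => by simp)
    (fun x => by simpa [Set.ncard_eq_toFinset_card'] using a1.deg x) t1 t2
  exact ⟨V, inferInstance, G, M, a1, by omega, a3, b, l, h.1,
    by simpa [Set.ncard_eq_toFinset_card'] using h.2.1, h.2.2⟩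

lemma has_three (hr : 2 ≤ r) (hc : 1 < c) (N : ℕ) : Has r 3 (c * c) N := by
  classical
  obtain ⟨V, _, G, M, a1, a2, a3, b, l, a4, a5, a6⟩ := has_blocks hr hc
    (Fin (r + 1 + (2 * (r + 1) + 2) * (2 * (r + 1) + 2) + 1)) N
  have := Fintype.ofFinite V
  have : Nonempty {T : Finset V // #T ≤ 2 * (r + 1) + 2} := ⟨⟨∅, by simp⟩⟩
  obtain ⟨W, _, H, L, b1, b2, b3, d, e, b4, b5, b6⟩ := has_blocks hr hc
    ({T : Finset V // #T ≤ 2 * (r + 1) + 2} × Fin (r + 1 + 1)) 1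
  have := Fintype.ofFinite W
  obtain ⟨J, j1, j2⟩ := exists_three (F := fun x y => G.edist x y = (2 : ℕ))
    (E := fun x y => H.edist x y = (2 : ℕ)) (l := fun w => (e w).1.1) (ρ := r + 1)
    (fun x y e => edist_comm.trans e) (fun x y e => edist_comm.trans e) a4 b4
    (by simpa [Set.ncard_eq_toFinset_card'] using a5)
    (by simpa [Set.ncard_eq_toFinset_card'] using b5) (fun w => (e w).1.2)
    (fun x S h => by
      obtain ⟨j, -, hj⟩ := exists_mem_notMem_of_card_lt_card (s := S.image l) (t := univ)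
        (card_image_le.trans_lt (by simpa using Nat.lt_succ_of_le h))
      obtain ⟨u, u1, u2⟩ := a6 x j
      exact ⟨u, u1, fun a => hj (u2 ▸ mem_image_of_mem l a)⟩)
    (fun y T S g h => by
      obtain ⟨j, -, hj⟩ := exists_mem_notMem_of_card_lt_card (s := S.image fun w => (e w).2)
        (t := univ) (card_image_le.trans_lt (by simpa using Nat.lt_succ_of_le h))
      obtain ⟨u, u1, u2⟩ := b6 y (⟨T, g⟩, j)
      exact ⟨u, u1, by simp [u2], fun a => hj (mem_image.2 ⟨u, a, by rw [u2]⟩)⟩)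
  refine ⟨V × W, inferInstance, J, M * L, a1.of_far b1 j1 j2, ?_, ?_⟩
  · rw [Nat.card_prod]
    nlinarith
  · rw [Nat.card_prod, Nat.cast_mul, Nat.cast_mul, Real.mul_rpow (by positivity) (by positivity),
      mul_mul_mul_comm]
    exact mul_le_mul a3 b3 (by positivity) ((Nat.cast_nonneg _).trans a3)

lemma has_every (hr : 2 ≤ r) (j : ℕ) : ∀ c : ℝ, 1 < c → ∀ N, Has r (j + 2) c N := by
  induction j using Nat.twoStepInduction with
  | zero => exact fun c hc => has_two hr hc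
  | one =>
    intro c hc N
    simpa [Real.mul_self_sqrt (zero_le_one.trans hc.le)] using
      has_three hr (c := √c) (Real.lt_sqrt_of_sq_lt (by simpa using hc)) N
  | more j h =>
    intro c hc N
    have a : 1 < √c := Real.lt_sqrt_of_sq_lt (by simpa using hc)
    simpa [Real.mul_self_sqrt (zero_le_one.trans hc.le)] using (h _ a N).mul (has_two hr a 1)

lemma upper_all (hr : 2 ≤ r) {k : ℕ} (hk : 1 ≤ k) (hc : 1 < c) (N : ℕ) :
    ∃ (V : Type) (_ : Finite V) (G : SimpleGraph V),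
      G.Connected ∧ (∀ v, IsKCriticalVertex G k v) ∧ kDomNumber G k = r + 1 ∧ N ≤ Nat.card V ∧
        Nat.card V ≤ (minKDegree G k + 1) * r ∧
        (Nat.card V : ℝ) - minKDegree G k ≤ c * (Nat.card V : ℝ) ^ (1 - 1 / r : ℝ) := by
  obtain ⟨b, b1, b2⟩ := exists_between hc
  obtain ⟨N1, h1⟩ := large (expo_pos hr) (1 / (c - b))
  obtain ⟨N2, h2⟩ := large (β := 1 / r) (by positivity) (2 * c)
  obtain ⟨j, rfl⟩ : ∃ j, k = j + 1 := ⟨k - 1, by omega⟩
  obtain ⟨V, _, G, a1, a2, a3, a4, a5⟩ := (has_every hr j b b1 (N + N1 + N2 + 1)).crit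
  have c1 := h1 (Nat.card V) (by omega)
  have c2 := h2 (Nat.card V) (by omega)
  have c3 : (0 : ℝ) < Nat.card V := by exact_mod_cast (by omega)
  rw [div_lt_iff₀ (by linarith)] at c1
  have c4 : (Nat.card V : ℝ) - minKDegree G (j + 1) ≤
      c * (Nat.card V : ℝ) ^ (1 - 1 / r : ℝ) := by linarith
  refine ⟨V, inferInstance, G, a1, a2, a3, by omega, ?_, c4⟩
  have c5 := mul_le_mul_of_nonneg_right c2.le (Real.rpow_nonneg c3.le (1 - 1 / r))
  rw [← Real.rpow_add c3, add_sub_cancel, Real.rpow_one] at c5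
  have c6 : Nat.card V ≤ 2 * minKDegree G (j + 1) := by
    exact_mod_cast (by linarith : (Nat.card V : ℝ) ≤ 2 * minKDegree G (j + 1))
  nlinarith

end Pool.Agent.P.MP_940262_co
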