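import Mathlib

/-! Distance domination in finite simple graphs. Distances are extended distances
(`SimpleGraph.edist`, infinite between different components). -/

namespace Pool.Agent.P.MP_940262_co

/-- `D` is `k`-dominating: every vertex is at distance at most `k` from some vertex of `D`. -/
def IsKDominating {V : Type} (G : SimpleGraph V) (k : ℕ) (D : Set V) : Prop :=
  ∀ v : V, ∃ u ∈ D, G.edist u v ≤ (k : ℕ∞)

/-- The `k`-domination number: the least size of a `k`-dominating set. -/
noncomputable def kDomNumber {V : Type} (G : SimpleGraph V) (k : ℕ) : ℕ :=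
  sInf {m : ℕ | ∃ D : Set V, D.ncard = m ∧ IsKDominating G k D}

/-- The `k`-degree of `v`: the number of vertices `u ≠ v` at distance at most `k` from `v`. -/
noncomputable def kDegree {V : Type} (G : SimpleGraph V) (k : ℕ) (v : V) : ℕ :=
  {u : V | u ≠ v ∧ G.edist u v ≤ (k : ℕ∞)}.ncard

/-- The minimum `k`-degree. -/
noncomputable def minKDegree {V : Type} (G : SimpleGraph V) (k : ℕ) : ℕ :=
  sInf (Set.range (kDegree G k))

/-- `v` is `k`-critical: deleting it (distances measured in `G - v`) lowers the
`k`-domination number. -/
def IsKCriticalVertex {V : Type} (G : SimpleGraph V) (k : ℕ) (v : V) : Prop :=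
  kDomNumber (G.induce {u : V | u ≠ v}) k < kDomNumber G k

end Pool.Agent.P.MP_940262_co
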