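import Pool.Agent.P.MP_940262_co.Far

/-! A symmetric relation with its loops doubled gives a graph of diameter two. -/

namespace Pool.Agent.P.MP_940262_co

open SimpleGraph Finset

variable {X : Type} (R : X → X → Prop)

/-- One copy of every point and a second copy of every point related to itself. -/
abbrev Dup := {x : X × Bool // x.2 = true → R x.1 x.1}

/-- Distinct vertices are adjacent when their points are not related. -/
def dupGraph (s : ∀ x y, R x y → R y x) : SimpleGraph (Dup R) where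
  Adj x y := x ≠ y ∧ ¬ R x.1.1 y.1.1
  symm := ⟨fun _ _ h => ⟨h.1.symm, fun e => h.2 (s _ _ e)⟩⟩
  loopless := ⟨fun _ h => h.1 rfl⟩

/-- The first copy of a point. -/
def fst0 (x : X) : Dup R := ⟨(x, false), by simp⟩

lemma card_le_dup [Finite X] : Nat.card X ≤ Nat.card (Dup R) :=
  Nat.card_le_card_of_injective (fst0 R) fun _ _ e => congrArg (·.1.1) e

lemma blk_dup [Finite X] {r M : ℕ} (hr : 2 ≤ r) (s : ∀ x y, R x y → R y x)
    (h1 : ∀ D : Finset X, D.card ≤ r → ∃ w, ∀ x ∈ D, R x w)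
    (h2 : ∀ D : Finset X, D.card ≤ r → ∃ w, ∀ x ∈ D, ¬ R x w)
    (h3 : ∀ P, ∃ f : Fin r → X, (∀ w, (∀ j, R (f j) w) ↔ w = P) ∧ (R P P → ∃ j, f j = P))
    (h4 : ∀ x, {y | R y x}.ncard + {y | R y x ∧ R y y}.ncard ≤ M) :
    Blk r 2 (dupGraph R s) M := by
  classical
  have k : ∀ x y, (dupGraph R s).edist x y = (2 : ℕ) ↔ R x.1.1 y.1.1 ∧ x ≠ y := fun x y => by
    rw [Nat.cast_ofNat, edist_eq_two_iff]
    refine ⟨fun h => ⟨by_contra fun e => h.2.1 ⟨h.1, e⟩, h.1⟩, fun h => ⟨h.2, fun e => e.2 h.1, ?_⟩⟩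
    obtain ⟨u, hu⟩ := h2 {x.1.1, y.1.1} (card_le_two.trans hr)
    have a := hu x.1.1 (by simp)
    have b := hu y.1.1 (by simp)
    exact ⟨fst0 R u, ⟨fun e => b (s _ _ (by simpa [e, fst0] using h.1)), a⟩,
      fun e => a (by simpa [e, fst0] using h.1), b⟩
  refine ⟨fun x y => ?_, fun D hD => ?_, fun v => ?_, fun x => ?_⟩
  · by_cases e : (dupGraph R s).Adj x y ∨ x = y
    · exact (edist_le_one_iff_adj_or_eq.2 e).trans (by simp)
    · rw [not_or] at e
      exact ((k x y).2 ⟨by_contra fun a => e.1 ⟨e.2, a⟩, e.2⟩).le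
  · simp only [k]
    have m : ∀ x ∈ D, x.1.1 ∈ D.image (·.1.1) := fun x hx => mem_image_of_mem _ hx
    by_cases c : (D.image (·.1.1)).card < r
    · obtain ⟨u, hu⟩ := h2 _ c.le
      obtain ⟨w, hw⟩ := h1 _ ((card_insert_le u _).trans (Nat.succ_le_of_lt c))
      exact ⟨fst0 R w, fun x hx => ⟨hw _ (mem_insert_of_mem (m x hx)), fun e =>
        hu _ (m x hx) (s _ _ (e ▸ hw u (mem_insert_self _ _)))⟩⟩
    · obtain ⟨w, hw⟩ := h1 _ ((card_image_le (f := (·.1.1))).trans hD)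
      by_cases e : fst0 R w ∈ D
      · refine ⟨⟨(w, true), fun _ => hw _ (m _ e)⟩, fun x hx => ⟨hw _ (m x hx), fun a => ?_⟩⟩
        have := card_image_iff.1 (card_image_le.antisymm (hD.trans (not_lt.1 c))) e hx (by simp [a, fst0])
        simp [a, fst0] at this
      · exact ⟨fst0 R w, fun x hx => ⟨hw _ (m x hx), fun a => e (a ▸ hx)⟩⟩
  · obtain ⟨⟨P, β⟩, hP⟩ := v
    obtain ⟨f, f1, f2⟩ := h3 P
    have f3 := (f1 P).2 rfl
    refine ⟨fun j => ⟨(f j, if f j = P then !β else false), fun e => ?_⟩, fun ⟨⟨Q, γ⟩, hQ⟩ => ?_⟩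
    · have a : f j = P := by_contra fun a => by simp [a] at e
      simpa [a] using f3 j
    · simp only [k, forall_and, f1, ne_eq, Subtype.mk.injEq, Prod.mk.injEq]
      refine ⟨fun h => ⟨h.1, by_contra fun e => ?_⟩, fun h => ⟨h.1, fun j e => ?_⟩⟩
      · obtain rfl := h.1
        obtain ⟨j, a⟩ := f2 (by cases β <;> cases γ <;> simp_all)
        exact h.2 j ⟨a, by cases β <;> cases γ <;> simp_all⟩
      · obtain ⟨rfl, rfl⟩ := h
        simp [e.1] at e
  · refine (Set.ncard_le_ncard_of_injOn Subtype.val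
      (t := {y | R y x.1.1} ×ˢ {false} ∪ {y | R y x.1.1 ∧ R y y} ×ˢ {true}) (fun y hy => ?_)
      Subtype.val_injective.injOn).trans ((Set.ncard_union_le _ _).trans ?_)
    · have a := ((k _ _).1 hy).1
      have b := y.2
      cases e : y.1.2 <;> simp_all
    · simpa [Set.ncard_prod] using h4 x.1.1

end Pool.Agent.P.MP_940262_co
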