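import Pool.Agent.P.MP_940262_co.Ladder

/-! Graphs of diameter `d` in which any `r` vertices have a common vertex at distance `d`. -/

namespace Pool.Agent.P.MP_940262_co

open SimpleGraph Finset

/-- Diameter at most `d`; any `r` vertices have a common vertex at distance `d`; every vertex is the
only such vertex for some `r` vertices; at most `M` vertices are at distance `d` from a vertex. -/
structure Blk (r d : ℕ) {V : Type} (G : SimpleGraph V) (M : ℕ) : Prop where
  diam : ∀ x y, G.edist x y ≤ d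
  all : ∀ D : Finset V, D.card ≤ r → ∃ w, ∀ x ∈ D, G.edist x w = d
  one : ∀ v, ∃ f : Fin r → V, ∀ w, (∀ j, G.edist (f j) w = d) ↔ w = v
  deg : ∀ x, {y | G.edist y x = d}.ncard ≤ M

lemma add_eq_iff {a b : ℕ∞} {m n : ℕ} (ha : a ≤ m) (hb : b ≤ n) :
    a + b = (m + n : ℕ) ↔ a = m ∧ b = n := by
  lift a to ℕ using ne_top_of_le_ne_top (ENat.natCast_ne_top m) ha
  lift b to ℕ using ne_top_of_le_ne_top (ENat.natCast_ne_top n) hb
  norm_cast at *
  omega

lemma Blk.prod {r d e M N : ℕ} {V W : Type} {G : SimpleGraph V} {H : SimpleGraph W}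
    (a : Blk r d G M) (b : Blk r e H N) : Blk r (d + e) (G □ H) (M * N) := by
  classical
  have k : ∀ x y : V × W, (G □ H).edist x y = (d + e : ℕ) ↔
      G.edist x.1 y.1 = d ∧ H.edist x.2 y.2 = e := fun x y => by
    rw [edist_boxProd, add_eq_iff (a.diam _ _) (b.diam _ _)]
  refine ⟨fun x y => ?_, fun D hD => ?_, fun v => ?_, fun x => ?_⟩
  · rw [edist_boxProd, Nat.cast_add]
    exact add_le_add (a.diam _ _) (b.diam _ _)
  · obtain ⟨u, hu⟩ := a.all (D.image Prod.fst) (card_image_le.trans hD)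
    obtain ⟨w, hw⟩ := b.all (D.image Prod.snd) (card_image_le.trans hD)
    exact ⟨(u, w), fun x hx => (k _ _).2 ⟨hu _ (mem_image_of_mem _ hx), hw _ (mem_image_of_mem _ hx)⟩⟩
  · obtain ⟨f, hf⟩ := a.one v.1
    obtain ⟨g, hg⟩ := b.one v.2
    exact ⟨fun j => (f j, g j), fun w => by simp only [k, forall_and, hf, hg, Prod.ext_iff]⟩
  · rw [show {y | (G □ H).edist y x = (d + e : ℕ)} =
      {y | G.edist y x.1 = d} ×ˢ {y | H.edist y x.2 = e} from Set.ext fun y => k y x,
      Set.ncard_prod]
    exact Nat.mul_le_mul (a.deg _) (b.deg _)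

lemma blk_top (r : ℕ) : Blk r 1 (⊤ : SimpleGraph (Fin (r + 1))) r := by
  have k : ∀ x y : Fin (r + 1), (⊤ : SimpleGraph (Fin (r + 1))).edist x y = (1 : ℕ) ↔ x ≠ y :=
    fun x y => by simp
  refine ⟨fun x y => ?_, fun D hD => ?_, fun v => ⟨v.succAbove, fun w => ?_⟩, fun x => ?_⟩
  · rw [edist_top]
    split_ifs <;> simp
  · obtain ⟨w, -, hw⟩ := exists_mem_notMem_of_card_lt_card (s := D) (t := univ) (by simp; omega)
    exact ⟨w, fun x hx => (k _ _).2 fun e => hw (e ▸ hx)⟩
  · simp only [k]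
    exact ⟨fun h => by_contra fun e => (Fin.exists_succAbove_eq e).elim h,
      fun e j => e ▸ Fin.succAbove_ne _ j⟩
  · simp only [k]
    rw [show {y | y ≠ x} = {x}ᶜ from rfl, Set.ncard_compl]
    simp

lemma ncard_range_le {X : Type} {r : ℕ} (f : Fin r → X) : (Set.range f).ncard ≤ r := by
  rw [← Set.image_univ]
  exact (Set.ncard_image_le).trans (by simp [Set.ncard_univ])

variable {V : Type} [Finite V] {G : SimpleGraph V} {k r M : ℕ}

lemma kDegree_add (G : SimpleGraph V) (k : ℕ) (v : V) :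
    kDegree G k v + 1 + {u | ¬ G.edist u v ≤ k}.ncard = Nat.card V := by
  rw [← Set.ncard_add_ncard_compl {u | G.edist u v ≤ k}, kDegree,
    ← Set.ncard_insert_of_notMem (a := v) (by simp)]
  congr 2
  ext u
  by_cases e : u = v <;> simp [e]

omit [Finite V] in
lemma min_le (G : SimpleGraph V) (k : ℕ) (v : V) : minKDegree G k ≤ kDegree G k v :=
  Nat.sInf_le ⟨v, rfl⟩

/-- The counting bound. -/
lemma count (h : r < kDomNumber G k) :
    Nat.card V ^ r ≤ Nat.card V * (Nat.card V - 1 - minKDegree G k) ^ r := by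
  classical
  have := Fintype.ofFinite V
  have a : (univ : Finset (Fin r → V)) ⊆ univ.biUnion fun w =>
      Fintype.piFinset fun _ => univ.filter fun u => ¬ G.edist u w ≤ k := fun f _ => by
    by_contra b
    simp only [mem_biUnion, mem_univ, true_and, Fintype.mem_piFinset, mem_filter, not_exists,
      not_forall, not_not] at b
    have c := kDomNumber_le G (k := k) (D := Set.range f) fun w => (b w).elim fun j e =>
      ⟨f j, ⟨j, rfl⟩, e⟩
    have d := ncard_range_le f
    omega
  have b := (card_le_card a).trans (card_biUnion_le_card_mul _ _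
    ((Nat.card V - 1 - minKDegree G k) ^ r) fun w _ => by
      rw [Fintype.card_piFinset, prod_const, card_univ, Fintype.card_fin]
      refine Nat.pow_le_pow_left ?_ r
      have c := kDegree_add G k w
      have d := min_le G k w
      rw [Set.ncard_eq_toFinset_card', Set.toFinset_ofPred] at c
      omega)
  simpa using b

omit [Finite V] in
lemma Blk.near (h : Blk r (k + 1) G M) (x y : V) :
    G.edist x y ≤ k ↔ ¬ G.edist x y = (k + 1 : ℕ) := by
  have a := h.diam x y
  generalize G.edist x y = e at a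
  lift e to ℕ using ne_top_of_le_ne_top (ENat.natCast_ne_top _) a
  norm_cast at *
  omega

lemma Blk.main (h : Blk r (k + 1) G M) : G.Connected ∧ (∀ v, IsKCriticalVertex G k v) ∧
    kDomNumber G k = r + 1 ∧ Nat.card V ≤ minKDegree G k + 1 + M := by
  classical
  obtain ⟨v0, -⟩ := h.all ∅ (by simp)
  have : Nonempty V := ⟨v0⟩
  have a : r + 1 ≤ kDomNumber G k := le_kDomNumber G fun D hD => by_contra fun b => by
    obtain ⟨w, hw⟩ := h.all D.toFinite.toFinset (by rw [← Set.ncard_eq_toFinset_card]; omega)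
    obtain ⟨u, u1, u2⟩ := hD w
    exact (h.near u w).1 u2 (hw u (by simpa using u1))
  have c : ∀ v, ∃ f : Fin r → V, (∀ j, ¬ G.edist (f j) v ≤ k) ∧
      ∀ w, w ≠ v → ∃ j, G.edist (f j) w ≤ k := fun v => by
    obtain ⟨f, hf⟩ := h.one v
    exact ⟨f, fun j e => (h.near _ _).1 e ((hf v).2 rfl j), fun w e => by
      simpa only [h.near, ← not_forall, hf] using e⟩
  refine ⟨⟨fun x y => edist_ne_top_iff_reachable.1
    (ne_top_of_le_ne_top (ENat.natCast_ne_top _) (h.diam x y))⟩, fun v => ?_, le_antisymm ?_ a, ?_⟩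
  · obtain ⟨f, f1, f2⟩ := c v
    have f0 : ∀ j, f j ≠ v := fun j e => f1 j (by simp [e])
    refine lt_of_le_of_lt (kDomNumber_le _ (D := Set.range fun j => (⟨f j, f0 j⟩ : {u | u ≠ v}))
      fun w => ?_) (lt_of_le_of_lt (ncard_range_le _) a)
    obtain ⟨j, e⟩ := f2 w w.2
    exact ⟨_, ⟨j, rfl⟩, edist_induce_le G (f0 j) w.2 (f1 j) e⟩
  · obtain ⟨f, -, f2⟩ := c v0
    refine (kDomNumber_le G (D := insert v0 (Set.range f)) fun w => ?_).trans
      ((Set.ncard_insert_le _ _).trans (Nat.succ_le_succ (ncard_range_le f)))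
    by_cases e : w = v0
    · exact ⟨v0, Set.mem_insert _ _, by simp [e]⟩
    · exact (f2 w e).elim fun j e => ⟨f j, Set.mem_insert_of_mem _ ⟨j, rfl⟩, e⟩
  · obtain ⟨v, e⟩ : minKDegree G k ∈ Set.range (kDegree G k) := Nat.sInf_mem (Set.range_nonempty _)
    have b := kDegree_add G k v
    have d := h.deg v
    simp only [h.near, not_not] at b
    omega

end Pool.Agent.P.MP_940262_co
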