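import Pool.Agent.P.MP_940262_co.Defs

namespace Pool.Agent.P.MP_940262_co

open SimpleGraph

section General

variable {V : Type} (G : SimpleGraph V)

lemma edist_le_iff_walk (u v : V) (k : ℕ) :
    G.edist u v ≤ (k : ℕ∞) ↔ ∃ p : G.Walk u v, p.length ≤ k := by
  constructor
  · intro h
    have hne : G.edist u v ≠ ⊤ := ne_top_of_le_ne_top (ENat.natCast_ne_top k) h
    obtain ⟨p, hp⟩ := exists_walk_of_edist_ne_top hne
    refine ⟨p, ?_⟩
    rw [← hp] at h
    exact_mod_cast h
  · rintro ⟨p, hp⟩
    exact (edist_le p).trans (by exact_mod_cast hp)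

lemma length_induce' {s : Set V} {u v : V} (w : G.Walk u v) (hw : ∀ x ∈ w.support, x ∈ s) :
    (w.induce s hw).length = w.length := by
  have := congrArg Walk.length (Walk.map_induce w hw)
  rwa [Walk.length_map] at this

/-- If `v` is far from `d`, short walks from `d` avoid `v`. -/
lemma edist_induce_le [DecidableEq V] {k : ℕ} {d u v : V} (hd : d ≠ v) (hu : u ≠ v)
    (hfar : ¬ G.edist d v ≤ (k : ℕ∞)) (hnear : G.edist d u ≤ (k : ℕ∞)) :
    (G.induce {x : V | x ≠ v}).edist ⟨d, hd⟩ ⟨u, hu⟩ ≤ (k : ℕ∞) := by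
  obtain ⟨p, hp⟩ := (edist_le_iff_walk G d u k).1 hnear
  have hw : ∀ x ∈ p.support, x ∈ {x : V | x ≠ v} := by
    intro x hx hxv
    subst hxv
    apply hfar
    exact (edist_le_iff_walk G d x k).2 ⟨p.takeUntil x hx, (p.length_takeUntil_le_length hx).trans hp⟩
  exact (edist_le_iff_walk _ _ _ k).2 ⟨p.induce _ hw, by rw [length_induce']; exact hp⟩

lemma kDomNumber_le {k : ℕ} {D : Set V} (hD : IsKDominating G k D) :
    kDomNumber G k ≤ D.ncard :=
  Nat.sInf_le ⟨D, rfl, hD⟩

lemma le_kDomNumber {k l : ℕ} (h : ∀ D : Set V, IsKDominating G k D → l ≤ D.ncard) :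
    l ≤ kDomNumber G k := by
  have hne : {m : ℕ | ∃ D : Set V, D.ncard = m ∧ IsKDominating G k D}.Nonempty :=
    ⟨_, Set.univ, rfl, fun v => ⟨v, Set.mem_univ _, by simp⟩⟩
  obtain ⟨D, hD, hdom⟩ := Nat.sInf_mem hne
  unfold kDomNumber
  rw [← hD]
  exact h D hdom

end General

section Ladder

variable {A : Type} [AddCommGroup A] {a b : A}

/-- `y` lies in the parametrised ball of radius `k` around `x`. -/
def Near (a b : A) (k : ℕ) (x y : A) : Prop :=
  ∃ i : ℤ, (|i| ≤ k ∧ y = x + i • a) ∨ (|i| + 1 ≤ k ∧ y = x + i • a + b)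

lemma near_of_walk (hb : b + b = 0) {x y : A} (p : (circulantGraph {a, b}).Walk x y) :
    Near a b p.length x y := by
  have hnb : -b = b := by rw [neg_eq_iff_add_eq_zero]; exact hb
  induction p with
  | nil => exact ⟨0, Or.inl ⟨by simp, by simp⟩⟩
  | @cons x z y h p ih =>
    obtain ⟨i, hi⟩ := ih
    rw [circulantGraph_adj] at h
    obtain ⟨-, h⟩ := h
    simp only [Set.mem_insert_iff, Set.mem_singleton_iff] at h
    simp only [Walk.length_cons]
    have hz : z = x + (-1 : ℤ) • a ∨ z = x + (1 : ℤ) • a ∨ z = x + b := by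
      rcases h with (h | h) | (h | h)
      · left; rw [← h]; simp
      · right; right; rw [← hnb, ← h]; simp
      · right; left; rw [← h]; simp
      · right; right; rw [← h]; simp
    rcases hz with hz | hz | hz
    · rcases hi with ⟨h1, h2⟩ | ⟨h1, h2⟩
      · refine ⟨i - 1, Or.inl ⟨?_, ?_⟩⟩
        · push_cast; rw [abs_le] at h1 ⊢; omega
        · rw [h2, hz]; module
      · refine ⟨i - 1, Or.inr ⟨?_, ?_⟩⟩
        · push_cast
          have : |i - 1| ≤ |i| + 1 := by simpa using abs_sub i 1
          omega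
        · rw [h2, hz]; module
    · rcases hi with ⟨h1, h2⟩ | ⟨h1, h2⟩
      · refine ⟨i + 1, Or.inl ⟨?_, ?_⟩⟩
        · push_cast; rw [abs_le] at h1 ⊢; omega
        · rw [h2, hz]; module
      · refine ⟨i + 1, Or.inr ⟨?_, ?_⟩⟩
        · push_cast
          have : |i + 1| ≤ |i| + 1 := by simpa using abs_add_le i 1
          omega
        · rw [h2, hz]; module
    · rcases hi with ⟨h1, h2⟩ | ⟨h1, h2⟩
      · refine ⟨i, Or.inr ⟨?_, ?_⟩⟩
        · push_cast; omega
        · rw [h2, hz]; abel
      · refine ⟨i, Or.inl ⟨?_, ?_⟩⟩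
        · push_cast; omega
        · rw [h2, hz]
          have : x + b + i • a + b = x + i • a + (b + b) := by abel
          rw [this, hb, add_zero]

lemma Near.mono {k l : ℕ} {x y : A} (h : Near a b k x y) (hkl : k ≤ l) : Near a b l x y := by
  obtain ⟨i, h | h⟩ := h
  · exact ⟨i, Or.inl ⟨by omega, h.2⟩⟩
  · exact ⟨i, Or.inr ⟨by omega, h.2⟩⟩

lemma edist_step_a (x : A) : (circulantGraph {a, b}).edist x (x + a) ≤ 1 := by
  rw [edist_le_one_iff_adj_or_eq]
  by_cases h : x = x + a
  · exact Or.inr h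
  · left; rw [circulantGraph_adj]; exact ⟨h, Or.inr (by simp)⟩

lemma edist_step_b (x : A) : (circulantGraph {a, b}).edist x (x + b) ≤ 1 := by
  rw [edist_le_one_iff_adj_or_eq]
  by_cases h : x = x + b
  · exact Or.inr h
  · left; rw [circulantGraph_adj]; exact ⟨h, Or.inr (by simp)⟩

lemma edist_nsmul_a (x : A) (n : ℕ) : (circulantGraph {a, b}).edist x (x + n • a) ≤ n := by
  induction n with
  | zero => simp
  | succ n ih =>
    calc (circulantGraph {a, b}).edist x (x + (n + 1) • a)
        ≤ (circulantGraph {a, b}).edist x (x + n • a) +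
          (circulantGraph {a, b}).edist (x + n • a) (x + (n + 1) • a) :=
          SimpleGraph.edist_triangle
      _ ≤ n + 1 := by
          gcongr
          rw [succ_nsmul, ← add_assoc]
          exact edist_step_a _
      _ = ((n + 1 : ℕ) : ℕ∞) := by push_cast; rfl

lemma edist_zsmul_a (x : A) (i : ℤ) :
    (circulantGraph {a, b}).edist x (x + i • a) ≤ (i.natAbs : ℕ) := by
  rcases Int.natAbs_eq i with h | h
  · conv_lhs => rw [h]
    rw [natCast_zsmul]
    exact edist_nsmul_a x _
  · have := edist_nsmul_a (a := a) (b := b) (x + i • a) i.natAbs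
    have e : x + i • a + i.natAbs • a = x := by
      rw [add_assoc, ← natCast_zsmul, ← add_zsmul]
      have : i + (i.natAbs : ℤ) = 0 := by omega
      rw [this, zero_zsmul, add_zero]
    rw [e, SimpleGraph.edist_comm] at this
    exact this

lemma edist_le_of_near {k : ℕ} {x y : A} (h : Near a b k x y) :
    (circulantGraph {a, b}).edist x y ≤ (k : ℕ∞) := by
  obtain ⟨i, ⟨h1, h2⟩ | ⟨h1, h2⟩⟩ := h
  · rw [h2]
    refine (edist_zsmul_a x i).trans ?_
    have : i.natAbs ≤ k := by
      rw [Int.abs_eq_natAbs] at h1; exact_mod_cast h1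
    exact_mod_cast this
  · rw [h2]
    have h3 : i.natAbs + 1 ≤ k := by
      rw [Int.abs_eq_natAbs] at h1; exact_mod_cast h1
    calc (circulantGraph {a, b}).edist x (x + i • a + b)
        ≤ (circulantGraph {a, b}).edist x (x + i • a) +
          (circulantGraph {a, b}).edist (x + i • a) (x + i • a + b) :=
          SimpleGraph.edist_triangle
      _ ≤ (i.natAbs : ℕ) + 1 := add_le_add (edist_zsmul_a x i) (edist_step_b _)
      _ ≤ (k : ℕ∞) := by exact_mod_cast h3

lemma edist_le_iff_near (hb : b + b = 0) {k : ℕ} {x y : A} :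
    (circulantGraph {a, b}).edist x y ≤ (k : ℕ∞) ↔ Near a b k x y := by
  refine ⟨fun h => ?_, edist_le_of_near⟩
  obtain ⟨p, hp⟩ := (edist_le_iff_walk _ _ _ _).1 h
  exact (near_of_walk hb p).mono hp

/-- Indicator of a finite set, with integer values. -/
noncomputable def ind (D : Set A) (x : A) : ℤ := by classical exact if x ∈ D then 1 else 0

omit [AddCommGroup A] in
lemma ind_nonneg (D : Set A) (x : A) : 0 ≤ ind D x := by
  unfold ind; split_ifs <;> simp

omit [AddCommGroup A] in
lemma ind_of_mem {D : Set A} {x : A} (h : x ∈ D) : ind D x = 1 := by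
  unfold ind; simp [h]

lemma sum_ind [Fintype A] (D : Set A) (c : A) : ∑ x : A, ind D (x + c) = D.ncard := by
  classical
  rw [Fintype.sum_equiv (Equiv.addRight c) (fun x => ind D (x + c)) (ind D) (fun _ => rfl)]
  unfold ind
  rw [Finset.sum_boole, Set.ncard_eq_toFinset_card']
  congr 2
  ext x; simp

/-- Parametrised covering multiplicity. -/
noncomputable def cov (a b : A) (k : ℕ) (D : Set A) (x : A) : ℤ :=
  ∑ i ∈ Finset.Icc (-(k : ℤ)) k, ind D (x + i • a) +
    ∑ i ∈ Finset.Ioo (-(k : ℤ)) k, ind D (x + (i • a + b))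

lemma one_le_cov (hb : b + b = 0) {k : ℕ} {D : Set A}
    (hD : IsKDominating (circulantGraph {a, b}) k D) (x : A) : 1 ≤ cov a b k D x := by
  obtain ⟨u, hu, hux⟩ := hD x
  rw [edist_comm, edist_le_iff_near hb] at hux
  have n1 : 0 ≤ ∑ i ∈ Finset.Icc (-(k : ℤ)) k, ind D (x + i • a) :=
    Finset.sum_nonneg fun _ _ => ind_nonneg _ _
  have n2 : 0 ≤ ∑ i ∈ Finset.Ioo (-(k : ℤ)) k, ind D (x + (i • a + b)) :=
    Finset.sum_nonneg fun _ _ => ind_nonneg _ _
  unfold cov
  obtain ⟨i, ⟨h1, h2⟩ | ⟨h1, h2⟩⟩ := hux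
  · have : ind D (x + i • a) ≤ ∑ i ∈ Finset.Icc (-(k : ℤ)) k, ind D (x + i • a) :=
      Finset.single_le_sum (f := fun i : ℤ => ind D (x + i • a)) (fun _ _ => ind_nonneg _ _)
        (by rw [Finset.mem_Icc]; exact abs_le.1 h1)
    rw [← h2, ind_of_mem hu] at this
    omega
  · have : ind D (x + (i • a + b)) ≤ ∑ i ∈ Finset.Ioo (-(k : ℤ)) k, ind D (x + (i • a + b)) :=
      Finset.single_le_sum (f := fun i : ℤ => ind D (x + (i • a + b)))
        (fun _ _ => ind_nonneg _ _)
        (by rw [Finset.mem_Ioo]; exact abs_lt.1 (by omega))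
    rw [← add_assoc, ← h2, ind_of_mem hu] at this
    omega

lemma sum_cov [Fintype A] {k : ℕ} (hk : 1 ≤ k) (D : Set A) :
    ∑ x : A, cov a b k D x = 4 * k * D.ncard := by
  unfold cov
  rw [Finset.sum_add_distrib, Finset.sum_comm, Finset.sum_comm (s := Finset.univ)]
  simp only [sum_ind, Finset.sum_const, Int.card_Icc, Int.card_Ioo, nsmul_eq_mul]
  rw [Int.toNat_of_nonneg (by omega), Int.toNat_of_nonneg (by omega)]
  ring

lemma Icc_eq_insert (k : ℕ) (hk : 1 ≤ k) :
    Finset.Icc (-(k : ℤ)) k = insert (-(k : ℤ)) (insert (k : ℤ) (Finset.Ioo (-(k : ℤ)) k)) := by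
  ext i; simp only [Finset.mem_Icc, Finset.mem_insert, Finset.mem_Ioo]; omega

lemma cov_sub (hb : b + b = 0) {k : ℕ} (hk : 1 ≤ k) (D : Set A) (x : A) :
    cov a b k D x - cov a b k D (x + b) =
      (ind D (x + (-(k : ℤ)) • a) - ind D (x + (-(k : ℤ)) • a + b)) +
        (ind D (x + (k : ℤ) • a) - ind D (x + (k : ℤ) • a + b)) := by
  unfold cov
  have e1 : ∀ i : ℤ, x + b + (i • a + b) = x + i • a := by
    intro i
    have : x + b + (i • a + b) = x + i • a + (b + b) := by abel
    rw [this, hb, add_zero]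
  have e2 : ∀ i : ℤ, x + b + i • a = x + (i • a + b) := by intro i; abel
  simp only [e1, e2]
  rw [Icc_eq_insert k hk, Finset.sum_insert (by simp; omega), Finset.sum_insert (by simp),
    Finset.sum_insert (by simp; omega), Finset.sum_insert (by simp)]
  simp only [add_assoc]
  ring

/-- No `l` balls cover the twisted ladder. -/
lemma le_ncard_of_dominating [Fintype A] (hb : b + b = 0) {k l : ℕ} (hk : 1 ≤ k)
    (hcard : Fintype.card A = 4 * k * l)
    (htw : (2 * k * l) • a = (l + 1) • b) {D : Set A}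
    (hD : IsKDominating (circulantGraph {a, b}) k D) : l + 1 ≤ D.ncard := by
  by_contra hlt
  have hle : D.ncard ≤ l := by omega
  have hcov : ∀ x, cov a b k D x = 1 := by
    have h1 : ∑ x : A, (cov a b k D x - 1) ≤ 0 := by
      rw [Finset.sum_sub_distrib, sum_cov hk]
      simp only [Finset.sum_const, Finset.card_univ, hcard, nsmul_eq_mul]
      have : (D.ncard : ℤ) ≤ l := by exact_mod_cast hle
      push_cast
      nlinarith
    have h2 : ∀ x ∈ (Finset.univ : Finset A), 0 ≤ cov a b k D x - 1 := fun x _ => by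
      have := one_le_cov hb hD x; omega
    have h3 := (Finset.sum_eq_zero_iff_of_nonneg h2).1
      (le_antisymm h1 (Finset.sum_nonneg h2))
    intro x
    have := h3 x (Finset.mem_univ _)
    omega
  set f : A → ℤ := fun x => ind D x - ind D (x + b) with hf
  have fa : ∀ x, f (x + (2 * k) • a) = -f x := by
    intro x
    have := cov_sub (a := a) hb hk D (x + (k : ℤ) • a)
    rw [hcov, hcov] at this
    have e1 : x + (k : ℤ) • a + (-(k : ℤ)) • a = x := by module
    have e2 : x + (k : ℤ) • a + (k : ℤ) • a = x + (2 * k) • a := by module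
    rw [e1, e2] at this
    simp only [hf]
    omega
  have fb : ∀ x, f (x + b) = -f x := by
    intro x
    simp only [hf, add_assoc, hb, add_zero]
    ring
  have fan : ∀ (n : ℕ) x, f (x + (2 * k * n) • a) = (-1) ^ n * f x := by
    intro n
    induction n with
    | zero => simp
    | succ n ih =>
      intro x
      have : x + (2 * k * (n + 1)) • a = x + (2 * k * n) • a + (2 * k) • a := by module
      rw [this, fa, ih]; ring
  have fbn : ∀ (n : ℕ) x, f (x + n • b) = (-1) ^ n * f x := by
    intro n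
    induction n with
    | zero => simp
    | succ n ih =>
      intro x
      rw [succ_nsmul, ← add_assoc, fb, ih]; ring
  have f0 : ∀ x, f x = 0 := by
    intro x
    have h1 := fan l x
    rw [htw, fbn, pow_succ] at h1
    rcases neg_one_pow_eq_or ℤ l with h | h <;> rw [h] at h1 <;> omega
  obtain ⟨d, hd, -⟩ := hD 0
  have hdb : ind D (d + b) = 1 := by
    have := f0 d
    simp only [hf, ind_of_mem hd] at this
    omega
  have c1 : ind D (d + (0 : ℤ) • a) ≤ ∑ i ∈ Finset.Icc (-(k : ℤ)) k, ind D (d + i • a) :=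
    Finset.single_le_sum (f := fun i : ℤ => ind D (d + i • a)) (fun _ _ => ind_nonneg _ _)
      (by rw [Finset.mem_Icc]; omega)
  have c2 : ind D (d + ((0 : ℤ) • a + b)) ≤
      ∑ i ∈ Finset.Ioo (-(k : ℤ)) k, ind D (d + (i • a + b)) :=
    Finset.single_le_sum (f := fun i : ℤ => ind D (d + (i • a + b)))
      (fun _ _ => ind_nonneg _ _) (by rw [Finset.mem_Ioo]; omega)
  have c3 := hcov d
  unfold cov at c3
  simp only [zero_zsmul, add_zero, zero_add, ind_of_mem hd, hdb] at c1 c2
  omega

/-- `l` alternating balls cover everything except `v`. -/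
lemma exists_cover (hb : b + b = 0) {k l : ℕ} (hk : 1 ≤ k) (hl : 1 ≤ l)
    (htw : (2 * k * l) • a = (l + 1) • b)
    (hgen : ∀ x : A, ∃ (i : ℤ) (s : ℕ), x = i • a + s • b) (v : A) :
    ∃ D : Set A, D.ncard ≤ l ∧
      ∀ u, u ≠ v → ∃ d ∈ D, (circulantGraph {a, b}).edist d u ≤ (k : ℕ∞) := by
  classical
  let c : ℕ → A := fun j => v + ((k : ℤ) + 2 * k * j) • a + (j + 1) • b
  have hpar : ∀ n : ℕ, n • b = 0 ∨ n • b = b := by
    intro n
    induction n with
    | zero => simp
    | succ n ih =>
      rw [succ_nsmul]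
      rcases ih with h | h <;> rw [h]
      · simp
      · exact Or.inl hb
  have hparz : ∀ n : ℤ, n • b = 0 ∨ n • b = b := by
    intro n
    have hnb : -b = b := by rw [neg_eq_iff_add_eq_zero]; exact hb
    rcases Int.natAbs_eq n with h | h
    · rw [h, natCast_zsmul]; exact hpar _
    · rw [h, neg_zsmul, natCast_zsmul]
      rcases hpar n.natAbs with h' | h' <;> rw [h']
      · simp
      · exact Or.inr hnb
  refine ⟨((Finset.range l).image c : Finset A), ?_, ?_⟩
  · rw [Set.ncard_coe_finset]
    exact Finset.card_image_le.trans (by simp)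
  intro u hu
  obtain ⟨i, s, his⟩ := hgen (u - v)
  have hm : (0 : ℤ) < 2 * k * l := by positivity
  have hk0 : (0 : ℤ) < 2 * k := by positivity
  -- reduce the column modulo `2 k l`
  obtain ⟨r, e, hr0, hr1, he, hre⟩ : ∃ (r : ℤ) (e : A), 0 ≤ r ∧ r < 2 * k * l ∧
      (e = 0 ∨ e = b) ∧ u = v + r • a + e := by
    refine ⟨i % (2 * k * l), ((i / (2 * k * l)) * (l + 1) + s) • b, Int.emod_nonneg _ hm.ne',
      Int.emod_lt_of_pos _ hm, hparz _, ?_⟩
    have h1 : ((2 * k * l : ℤ)) • a = ((l : ℤ) + 1) • b := by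
      have := htw
      rw [← natCast_zsmul, ← natCast_zsmul] at this
      exact_mod_cast this
    have h2 : u = v + (i • a + s • b) := by rw [← his]; abel
    have h3 : i • a = (i % (2 * k * l)) • a + (i / (2 * k * l)) • (((l : ℤ) + 1) • b) := by
      rw [← h1, smul_smul, ← add_zsmul]
      congr 1
      have := Int.emod_add_mul_ediv i (2 * k * l)
      linarith
    rw [h2, h3]
    module
  obtain ⟨j, t, ht0, ht1, hjt⟩ : ∃ (j : ℕ) (t : ℤ), 0 ≤ t ∧ t < 2 * k ∧ r = 2 * k * j + t := by
    refine ⟨(r / (2 * k)).toNat, r % (2 * k), Int.emod_nonneg _ hk0.ne',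
      Int.emod_lt_of_pos _ hk0, ?_⟩
    rw [Int.toNat_of_nonneg (Int.ediv_nonneg hr0 hk0.le)]
    have := Int.emod_add_mul_ediv r (2 * k)
    linarith
  have hjl : j < l := by
    have : (2 * k : ℤ) * j < 2 * k * l := by linarith
    have := lt_of_mul_lt_mul_left this hk0.le
    exact_mod_cast this
  have hmem : ∀ j' < l, c j' ∈ (((Finset.range l).image c : Finset A) : Set A) := by
    intro j' hj'
    simp only [Finset.coe_image, Finset.coe_range]
    exact ⟨j', hj', rfl⟩
  -- the rail of `u` relative to the centre `c j`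
  have hrail : e = (j + 1) • b ∨ e = (j + 1) • b + b := by
    rcases he with he | he <;> rcases hpar (j + 1) with h | h <;> rw [he, h]
    · simp
    · exact Or.inr hb.symm
    · simp
    · simp
  rcases hrail with h | h
  · refine ⟨c j, hmem j hjl, edist_le_of_near ⟨t - k, Or.inl ⟨?_, ?_⟩⟩⟩
    · rw [abs_le]; omega
    · rw [hre, h, hjt]; simp only [c]; module
  · by_cases ht : t = 0
    · have h' : e = j • b := by
        rw [h, succ_nsmul, add_assoc, hb, add_zero]
      rcases j with _ | j
      · exfalso; apply hu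
        rw [hre, h', hjt, ht]; simp
      · refine ⟨c j, hmem j (by omega), edist_le_of_near ⟨k, Or.inl ⟨?_, ?_⟩⟩⟩
        · simp
        · rw [hre, h', hjt, ht]; simp only [c]; push_cast; module
    · refine ⟨c j, hmem j hjl, edist_le_of_near ⟨t - k, Or.inr ⟨?_, ?_⟩⟩⟩
      · have : |t - k| ≤ k - 1 := by rw [abs_le]; omega
        omega
      · rw [hre, h, hjt]; simp only [c]; module

lemma le_kDegree [Fintype A] (hb : b + b = 0) {k m : ℕ} (hk : 1 ≤ k) (hm : 2 * k < m)
    (hb0 : b ≠ 0) (hinj : ∀ i : ℤ, (i • a = 0 ∨ i • a = b) → (m : ℤ) ∣ i) (v : A) :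
    4 * k ≤ kDegree (circulantGraph {a, b}) k v + 1 := by
  classical
  have hsmall : ∀ i : ℤ, |i| ≤ 2 * k → (i • a = 0 ∨ i • a = b) → i = 0 := by
    intro i hi h
    apply Int.eq_zero_of_abs_lt_dvd (hinj i h)
    have : (2 * k : ℤ) < m := by exact_mod_cast hm
    omega
  let S1 : Finset A := ((Finset.Icc (-(k : ℤ)) k).erase 0).image fun i => v + i • a
  let S2 : Finset A := (Finset.Ioo (-(k : ℤ)) k).image fun i => v + i • a + b
  have hsub : ∀ i j : ℤ, v + i • a = v + j • a → (i - j) • a = 0 := by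
    intro i j h
    rw [sub_smul, sub_eq_zero]; exact add_left_cancel h
  have c1 : S1.card = 2 * k := by
    rw [Finset.card_image_of_injOn, Finset.card_erase_of_mem (by simp), Int.card_Icc]
    · omega
    · intro i hi j hj h
      simp only [Finset.coe_erase, Finset.coe_Icc, Set.mem_sdiff, Set.mem_Icc] at hi hj
      have := hsmall (i - j) (by rw [abs_le]; omega) (Or.inl (hsub i j h))
      omega
  have c2 : S2.card = 2 * k - 1 := by
    rw [Finset.card_image_of_injOn, Int.card_Ioo]
    · omega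
    · intro i hi j hj h
      simp only [Finset.coe_Ioo, Set.mem_Ioo] at hi hj
      have := hsmall (i - j) (by rw [abs_le]; omega) (Or.inl (hsub i j (add_right_cancel h)))
      omega
  have hdisj : Disjoint S1 S2 := by
    rw [Finset.disjoint_left]
    intro x h1 h2
    simp only [S1, S2, Finset.mem_image, Finset.mem_erase, Finset.mem_Icc,
      Finset.mem_Ioo] at h1 h2
    obtain ⟨i, hi, rfl⟩ := h1
    obtain ⟨j, hj, h⟩ := h2
    have h3 : (i - j) • a = b := by
      rw [sub_smul, sub_eq_iff_eq_add']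
      rw [add_assoc] at h
      exact (add_left_cancel h).symm
    have := hsmall (i - j) (by rw [abs_le]; omega) (Or.inr h3)
    rw [this, zero_zsmul] at h3
    exact hb0 h3.symm
  have hss : ((S1 ∪ S2 : Finset A) : Set A) ⊆
      {u : A | u ≠ v ∧ (circulantGraph {a, b}).edist u v ≤ (k : ℕ∞)} := by
    intro x hx
    simp only [S1, S2, Finset.coe_union, Finset.coe_image, Set.mem_union, Set.mem_image,
      Finset.mem_coe, Finset.mem_erase, Finset.mem_Icc, Finset.mem_Ioo] at hx
    rw [Set.mem_ofPred_eq, SimpleGraph.edist_comm]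
    rcases hx with ⟨i, hi, rfl⟩ | ⟨i, hi, rfl⟩
    · refine ⟨fun h => hi.1 (hsmall i (by rw [abs_le]; omega) (Or.inl (by simpa using h))),
        edist_le_of_near ⟨i, Or.inl ⟨abs_le.2 hi.2, rfl⟩⟩⟩
    · refine ⟨fun h => ?_, edist_le_of_near ⟨i, Or.inr ⟨?_, rfl⟩⟩⟩
      · have h3 : i • a = b := by
          have h4 : i • a + b = 0 := by simpa [add_assoc] using h
          have h5 : i • a + b = b + b := by rw [h4, hb]
          exact add_right_cancel h5
        have := hsmall i (by rw [abs_le]; omega) (Or.inr h3)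
        rw [this, zero_zsmul] at h3
        exact hb0 h3.symm
      · have : |i| < k := abs_lt.2 hi
        omega
  have := Set.ncard_le_ncard hss (Set.toFinite _)
  rw [Set.ncard_coe_finset, Finset.card_union_of_disjoint hdisj, c1, c2] at this
  unfold kDegree
  omega

/-- The abstract twisted ladder is a counterexample. -/
theorem ladder_main [Fintype A] (hb : b + b = 0) {k l : ℕ} (hk : 1 ≤ k) (hl : 2 ≤ l)
    (hcard : Fintype.card A = 4 * k * l)
    (htw : (2 * k * l) • a = (l + 1) • b)
    (hgen : ∀ x : A, ∃ (i : ℤ) (s : ℕ), x = i • a + s • b)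
    (hb0 : b ≠ 0) (hinj : ∀ i : ℤ, (i • a = 0 ∨ i • a = b) → ((2 * k * l : ℕ) : ℤ) ∣ i) :
    (circulantGraph {a, b}).Connected ∧
      (∀ v, IsKCriticalVertex (circulantGraph {a, b}) k v) ∧
      kDomNumber (circulantGraph {a, b}) k = l + 1 ∧
      Nat.card A ≤ (minKDegree (circulantGraph {a, b}) k + 1) * l := by
  classical
  have hlow : ∀ D : Set A, IsKDominating (circulantGraph {a, b}) k D → l + 1 ≤ D.ncard :=
    fun D hD => le_ncard_of_dominating hb hk hcard htw hD
  have hgam : kDomNumber (circulantGraph {a, b}) k = l + 1 := by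
    apply le_antisymm
    · obtain ⟨D, hD, hcov⟩ := exists_cover hb hk (by omega) htw hgen (0 : A)
      have hdom : IsKDominating (circulantGraph {a, b}) k (insert 0 D) := by
        intro u
        by_cases hu : u = 0
        · exact ⟨0, Set.mem_insert _ _, by simp [hu]⟩
        · obtain ⟨d, hd, h⟩ := hcov u hu
          exact ⟨d, Set.mem_insert_of_mem _ hd, h⟩
      exact (kDomNumber_le _ hdom).trans ((Set.ncard_insert_le _ _).trans (by omega))
    · exact le_kDomNumber _ hlow
  refine ⟨?_, ?_, hgam, ?_⟩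
  · rw [connected_iff_exists_forall_reachable]
    refine ⟨0, fun x => ?_⟩
    obtain ⟨i, s, his⟩ := hgen x
    have hpar : ∀ n : ℕ, n • b = 0 ∨ n • b = b := by
      intro n
      induction n with
      | zero => simp
      | succ n ih =>
        rw [succ_nsmul]
        rcases ih with h | h <;> rw [h]
        · simp
        · exact Or.inl hb
    have hn : Near a b (i.natAbs + 1) 0 x := by
      refine ⟨i, ?_⟩
      rcases hpar s with h | h
      · left; refine ⟨by push_cast; omega, by rw [his, h]; simp⟩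
      · right; refine ⟨by push_cast; omega, by rw [his, h]; simp⟩
    exact reachable_of_edist_ne_top
      (ne_top_of_le_ne_top (ENat.natCast_ne_top _) (edist_le_of_near hn))
  · intro v
    obtain ⟨D, hD, hcov⟩ := exists_cover hb hk (by omega) htw hgen v
    have hfar : ∀ d ∈ D, ¬ (circulantGraph {a, b}).edist d v ≤ (k : ℕ∞) := by
      intro d hd h
      have hdom : IsKDominating (circulantGraph {a, b}) k D := by
        intro u
        by_cases hu : u = v
        · exact ⟨d, hd, hu ▸ h⟩
        · exact hcov u hu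
      have := hlow D hdom
      omega
    have hne : ∀ d ∈ D, d ≠ v := fun d hd h => hfar d hd (by simp [h])
    have hdom : IsKDominating ((circulantGraph {a, b}).induce {u : A | u ≠ v}) k
        (Subtype.val ⁻¹' D) := by
      rintro ⟨u, hu⟩
      obtain ⟨d, hd, h⟩ := hcov u hu
      exact ⟨⟨d, hne d hd⟩, hd, edist_induce_le _ (hne d hd) hu (hfar d hd) h⟩
    unfold IsKCriticalVertex
    rw [hgam]
    refine lt_of_le_of_lt (kDomNumber_le _ hdom) (Nat.lt_succ_of_le (le_trans ?_ hD))
    exact Set.ncard_le_ncard_of_injOn Subtype.val (fun _ h => h)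
      Subtype.val_injective.injOn (Set.toFinite _)
  · have hne : (Set.range (kDegree (circulantGraph {a, b}) k)).Nonempty := Set.range_nonempty _
    obtain ⟨v, hv⟩ := Nat.sInf_mem hne
    unfold minKDegree
    rw [← hv, Nat.card_eq_fintype_card, hcard]
    have hlt : 2 * k < 2 * k * l := by nlinarith
    exact Nat.mul_le_mul_right l (le_kDegree hb hk hlt hb0 hinj v)

end Ladder

end Pool.Agent.P.MP_940262_co
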