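import Pool.Agent.P.MP_940262_co.Ladder

/-! The lower bound `n ≥ (δ_k + 1)(γ_k - 1) + 1` fails for every `k ≥ 2` and
every `ℓ ≥ 3`: Moebius ladders (`ℓ` odd) and prisms (`ℓ` even) on `4 k (ℓ - 1)` vertices. -/

namespace Pool.Agent.P.MP_940262_co

theorem ladders_counterexample (k l : ℕ) (hk : 2 ≤ k) (hl : 3 ≤ l) :
    ∃ (V : Type) (_ : Finite V) (G : SimpleGraph V),
      G.Connected ∧ (∀ v : V, IsKCriticalVertex G k v) ∧ kDomNumber G k = l ∧
        Nat.card V ≤ (minKDegree G k + 1) * (l - 1) := by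
  obtain ⟨l, rfl⟩ : ∃ l', l = l' + 1 := ⟨l - 1, by omega⟩
  have hl2 : 2 ≤ l := by omega
  have hk1 : 1 ≤ k := by omega
  have hm : 0 < 2 * k * l := by positivity
  rw [Nat.add_sub_cancel]
  rcases Nat.even_or_odd l with hev | hodd
  · -- Moebius ladder
    have : NeZero (4 * k * l) := ⟨by positivity⟩
    have hzero : ((4 * k * l : ℕ) : ZMod (4 * k * l)) = 0 := ZMod.natCast_self _
    have hb : ((2 * k * l : ℕ) : ZMod (4 * k * l)) + ((2 * k * l : ℕ) : ZMod (4 * k * l)) = 0 := by
      rw [← hzero]; push_cast; ring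
    refine ⟨ZMod (4 * k * l), inferInstance, _,
      ladder_main (a := 1) (b := ((2 * k * l : ℕ) : ZMod (4 * k * l))) hb hk1 hl2
        (ZMod.card _) ?_ ?_ ?_ ?_⟩
    · obtain ⟨r, hr⟩ := hev
      have : (l + 1) • ((2 * k * l : ℕ) : ZMod (4 * k * l)) =
          r • (((2 * k * l : ℕ) : ZMod (4 * k * l)) + ((2 * k * l : ℕ) : ZMod (4 * k * l))) +
            ((2 * k * l : ℕ) : ZMod (4 * k * l)) := by
        generalize ((2 * k * l : ℕ) : ZMod (4 * k * l)) = x
        rw [show l + 1 = r + r + 1 by omega]; module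
      rw [this, hb]; simp
    · intro x
      obtain ⟨i, rfl⟩ := ZMod.intCast_surjective x
      exact ⟨i, 0, by simp⟩
    · intro h
      rw [ZMod.natCast_eq_zero_iff] at h
      have := Nat.le_of_dvd hm h
      nlinarith
    · intro i hi
      have hdvd : ((2 * k * l : ℕ) : ℤ) ∣ ((4 * k * l : ℕ) : ℤ) := ⟨2, by push_cast; ring⟩
      rcases hi with hi | hi
      · rw [zsmul_one, ZMod.intCast_zmod_eq_zero_iff_dvd] at hi
        exact hdvd.trans hi
      · rw [zsmul_one, ← Int.cast_natCast, ZMod.intCast_eq_intCast_iff_dvd_sub] at hi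
        have := hdvd.trans hi
        exact (Int.dvd_iff_dvd_of_dvd_sub this).1 dvd_rfl
  · -- prism
    have : NeZero (2 * k * l) := ⟨hm.ne'⟩
    have hb : ((0, 1) : ZMod (2 * k * l) × ZMod 2) + (0, 1) = 0 := by
      ext
      · simp
      · rfl
    refine ⟨ZMod (2 * k * l) × ZMod 2, inferInstance, _,
      ladder_main (a := (1, 0)) (b := (0, 1)) hb hk1 hl2 ?_ ?_ ?_ ?_ ?_⟩
    · rw [Fintype.card_prod, ZMod.card, ZMod.card]; ring
    · obtain ⟨r, hr⟩ := hodd
      have h1 : (l + 1) • ((0, 1) : ZMod (2 * k * l) × ZMod 2) =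
          (r + 1) • (((0, 1) : ZMod (2 * k * l) × ZMod 2) + (0, 1)) := by
        generalize ((0, 1) : ZMod (2 * k * l) × ZMod 2) = x
        rw [show l + 1 = 2 * r + 1 + 1 by omega]; module
      rw [h1, hb, smul_zero]
      ext
      · rw [Prod.smul_fst, nsmul_one]; exact ZMod.natCast_self _
      · simp
    · rintro ⟨x, y⟩
      obtain ⟨i, rfl⟩ := ZMod.intCast_surjective x
      obtain ⟨s, rfl⟩ := ZMod.natCast_zmod_surjective y
      exact ⟨i, s, by simp⟩
    · intro h
      have := congrArg Prod.snd h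
      simp at this
    · intro i hi
      have h1 : (i : ZMod (2 * k * l)) = 0 := by
        rcases hi with hi | hi <;> simpa using congrArg Prod.fst hi
      exact (ZMod.intCast_zmod_eq_zero_iff_dvd _ _).1 h1

end Pool.Agent.P.MP_940262_co
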