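import Pool.Agent.P.MP_940262_co.Sharp

/-! A sparse graph splits into large independent blocks that meet every neighbourhood in few
vertices. -/

namespace Pool.Agent.P.MP_940262_co

open Finset

variable {V : Type} [Fintype V] [DecidableEq V] {F : V → V → Prop} [DecidableRel F] {M t r : ℕ}

lemma exists_block (s : ∀ x y, F x y → F y x) (i : ∀ x, ¬ F x x) (hM : ∀ x, #{y | F y x} ≤ M)
    (L : Finset V) (m : ℕ) (h : t * M + 1 + m * (M + 1) ≤ #L) :
    ∃ B ⊆ L, #B = m ∧ (∀ x ∈ B, ∀ y ∈ B, ¬ F x y) ∧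
      ∑ y, t ^ #{x ∈ B | F x y} ≤ 2 ^ m * Fintype.card V := by
  induction m with
  | zero => exact ⟨∅, by simp, rfl, by simp, by simp⟩
  | succ m ih =>
    obtain ⟨B, b1, b2, b3, b4⟩ := ih (by nlinarith)
    have c : t * M + 1 ≤ #(L \ (B ∪ B.biUnion fun x => {y | F y x})) := by
      have a := le_card_sdiff (B ∪ B.biUnion fun x => {y | F y x}) L
      have b := card_union_le B (B.biUnion fun x => {y | F y x})
      have d := card_biUnion_le_card_mul B (fun x => ({y | F y x} : Finset V)) M fun x _ => hM x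
      rw [b2] at b d
      rw [add_mul, mul_add m] at h
      omega
    obtain ⟨z, z1, z2⟩ := exists_le_of_sum_le (card_pos.1 (lt_of_lt_of_le (by omega) c))
      (f := fun z => ∑ y, if F z y then t * t ^ #{x ∈ B | F x y} else 0)
      (g := fun _ => ∑ y, t ^ #{x ∈ B | F x y}) (by
        refine (sum_le_univ_sum_of_nonneg fun _ => Nat.zero_le _).trans ?_
        rw [sum_comm, sum_const, smul_eq_mul, mul_sum]
        refine sum_le_sum fun y _ => ?_
        rw [← sum_filter, sum_const, smul_eq_mul, ← mul_assoc]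
        exact Nat.mul_le_mul_right _ (by nlinarith [hM y]))
    simp only [mem_sdiff, mem_union, mem_biUnion, mem_filter, mem_univ, true_and, not_or,
      not_exists, not_and] at z1
    refine ⟨insert z B, insert_subset z1.1 b1, by rw [card_insert_of_notMem z1.2.1, b2], ?_, ?_⟩
    · simp only [mem_insert, forall_eq_or_imp]
      exact ⟨⟨i z, z1.2.2⟩, fun x hx => ⟨fun e => z1.2.2 x hx (s _ _ e), b3 x hx⟩⟩
    · refine le_trans (sum_le_sum (g := fun y => t ^ #{x ∈ B | F x y} +
        if F z y then t * t ^ #{x ∈ B | F x y} else 0) fun y _ => ?_) ?_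
      · rw [filter_insert]
        split_ifs
        · rw [card_insert_of_notMem (by simp [z1.2.1]), pow_succ']
          omega
        · rfl
      · rw [sum_add_distrib, pow_succ', mul_assoc]
        omega

lemma exists_blocks {A : Type} [Fintype A] [Nonempty A] (s : ∀ x y, F x y → F y x)
    (i : ∀ x, ¬ F x x) (hM : ∀ x, #{y | F y x} ≤ M)
    (h1 : 2 ^ Fintype.card A * Fintype.card V < t ^ (r + 1))
    (h2 : (Fintype.card A + 1) * (t * M + 1 + Fintype.card A * (M + 1)) + Fintype.card A * M ≤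
      Fintype.card V) :
    ∃ (b : V → Finset V) (l : V → A), (∀ x y, b x = b y → ¬ F x y) ∧
      (∀ x y, #{u | b u = b x ∧ F u y} ≤ r + 1) ∧ ∀ x j, ∃ u, b u = b x ∧ l u = j := by
  classical
  have m0 : 0 < Fintype.card A := Fintype.card_pos
  have hf : ∀ B : Finset V, ∃ f : V → A, #B = Fintype.card A → ∀ j, ∃ u ∈ B, f u = j := fun B => by
    by_cases e : #B = Fintype.card A
    · have a : A ≃ B := Fintype.equivOfCardEq (by simp [e])
      exact ⟨Function.invFun fun j => (a j : V), fun _ j => ⟨a j, (a j).2,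
        Function.leftInverse_invFun (Subtype.val_injective.comp a.injective) j⟩⟩
    · exact ⟨fun _ => Classical.arbitrary A, fun a => (e a).elim⟩
  choose f hf using hf
  generalize Fintype.card A = m at *
  obtain ⟨S, S1, S2⟩ := exists_max_image (univ.filter fun S : Finset (Finset V) =>
    (∀ B ∈ S, #B = m ∧ (∀ x ∈ B, ∀ y ∈ B, ¬ F x y) ∧ ∀ y, #{x ∈ B | F x y} ≤ r) ∧
      ∀ B ∈ S, ∀ C ∈ S, ∀ x ∈ B, x ∈ C → B = C) card ⟨∅, by simp⟩
  simp only [mem_filter, mem_univ, true_and] at S1 S2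
  obtain ⟨L, hL⟩ : ∃ L : Finset V, L = univ \ S.biUnion id := ⟨_, rfl⟩
  have mL : ∀ x, x ∈ L ↔ ∀ B ∈ S, x ∉ B := by simp [hL]
  have c1 : #L < t * M + 1 + m * (M + 1) := not_le.1 fun a => by
    obtain ⟨B, b1, b2, b3, b4⟩ := exists_block s i hM L m a
    obtain ⟨x, hx⟩ := card_pos.1 (b2 ▸ m0)
    have := S2 (insert B S) ⟨?_, ?_⟩
    · rw [card_insert_of_notMem fun e => (mL x).1 (b1 hx) B e hx] at this
      omega
    · simp only [mem_insert, forall_eq_or_imp]
      refine ⟨⟨b2, b3, fun y => not_lt.1 fun e => ?_⟩, S1.1⟩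
      have := single_le_sum (f := fun y => t ^ #{x ∈ B | F x y}) (fun _ _ => Nat.zero_le _)
        (mem_univ y)
      have := Nat.pow_le_pow_right (Nat.pos_of_ne_zero fun e => by simp [e] at h1 : 0 < t) e
      simp only [Nat.succ_eq_add_one] at this
      omega
    · simp only [mem_insert, forall_eq_or_imp]
      exact ⟨⟨fun _ _ _ => trivial, fun C hC y a e => ((mL y).1 (b1 a) C hC e).elim⟩, fun C hC =>
        ⟨fun y e a => ((mL y).1 (b1 a) C hC e).elim, S1.2 C hC⟩⟩
  have c2 : #L + M ≤ #S := by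
    have a := le_card_sdiff (S.biUnion id) univ
    have b := card_biUnion_le_card_mul S id m fun B hB => (S1.1 B hB).1.le
    rw [← hL, card_univ, tsub_le_iff_right] at a
    refine Nat.le_of_mul_le_mul_left ?_ m0
    nlinarith
  have hc : ∀ x, ∃ C, ∀ B ∈ S, x ∈ B → C = B := fun x => by
    by_cases e : ∃ C ∈ S, x ∈ C
    · obtain ⟨C, a, b⟩ := e
      exact ⟨C, fun B hB hx => S1.2 C a B hB x b hx⟩
    · exact ⟨∅, fun B hB hx => (e ⟨B, hB, hx⟩).elim⟩
  choose c hc using hc
  obtain ⟨g, g1, g2⟩ := (all_card_le_biUnion_card_iff_exists_injective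
    fun z : L => S.filter fun B => ∀ x ∈ B, ¬ F x z).1 fun T => by
      rcases T.eq_empty_or_nonempty with rfl | ⟨z, hz⟩
      · simp
      refine le_trans ?_ (card_le_card (subset_biUnion_of_mem _ hz))
      have a := card_filter_add_card_filter_not (s := S) fun B => ∀ x ∈ B, ¬ F x z
      have b : #(S.filter fun B => ¬ ∀ x ∈ B, ¬ F x z) ≤ M :=
        (card_le_card (t := image c {y | F y z}) fun B hB => by
          simp only [mem_filter, not_forall, not_not] at hB
          obtain ⟨e, x, x1, x2⟩ := hB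
          exact mem_image.2 ⟨x, by simpa using x2, hc x B e x1⟩).trans (card_image_le.trans (hM z))
      have d : #T ≤ #L := by simpa using card_le_univ T
      omega
  simp only [mem_filter] at g2
  obtain ⟨b, b1, b2, b3, b4⟩ : ∃ b : V → Finset V, (∀ x, b x ∈ S) ∧ (∀ B ∈ S, ∀ x ∈ B, b x = B) ∧
      (∀ x, x ∉ b x → ∀ y ∈ b x, ¬ F y x) ∧ ∀ x y, x ∉ b x → y ∉ b y → b x = b y → x = y := by
    have a : ∀ x, x ∉ L → c x ∈ S ∧ x ∈ c x := fun x e => by
      simp only [mL, not_forall, not_not] at e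
      obtain ⟨B, a, b⟩ := e
      exact hc x B a b ▸ ⟨a, b⟩
    refine ⟨fun x => if h : x ∈ L then g ⟨x, h⟩ else c x, fun x => ?_, fun B hB x hx => ?_,
      fun x => ?_, fun x y => ?_⟩ <;> beta_reduce
    · split_ifs with e
      exacts [(g2 _).1, (a x e).1]
    · rw [dif_neg fun e => (mL x).1 e B hB hx, hc x B hB hx]
    · split_ifs with e
      exacts [fun _ => (g2 _).2, fun n => (n (a x e).2).elim]
    · split_ifs with e e' e'
      exacts [fun _ _ n => congrArg Subtype.val (g1 n), fun _ n => (n (a y e').2).elim,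
        fun n => (n (a x e).2).elim, fun n => (n (a x e).2).elim]
  refine ⟨b, fun x => f (b x) x, fun x y e => ?_, fun x y => ?_, fun x j => ?_⟩
  · by_cases h : x ∈ b x <;> by_cases g : y ∈ b y
    · exact (S1.1 _ (b1 x)).2.1 x h y (e ▸ g)
    · exact b3 y g x (e ▸ h)
    · exact fun a => b3 x h y (e ▸ g) (s _ _ a)
    · exact b4 x y h g e ▸ i x
  · refine (card_le_card (t := {u ∈ b x | F u y} ∪ univ.filter fun u => b u = b x ∧ u ∉ b x)
      fun u hu => ?_).trans
      ((card_union_le _ _).trans (add_le_add ((S1.1 _ (b1 x)).2.2 y) (card_le_one.2 fun u a v d => ?_)))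
    · simp only [mem_filter, mem_univ, true_and, mem_union] at hu ⊢
      tauto
    · simp only [mem_filter, mem_univ, true_and] at a d
      exact b4 u v (a.1 ▸ a.2) (d.1 ▸ d.2) (a.1.trans d.1.symm)
  · obtain ⟨u, u1, u2⟩ := hf (b x) (S1.1 _ (b1 x)).1 j
    exact ⟨u, b2 _ (b1 x) u u1, by simp only [b2 _ (b1 x) u u1, u2]⟩

end Pool.Agent.P.MP_940262_co
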