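import Pool.Agent.P.MP_940262_co.Dup

/-! The orthogonality relation of a finite projective space. -/

namespace Pool.Agent.P.MP_940262_co

open Finset Projectivization
open scoped LinearAlgebra.Projectivization

variable {F : Type} [Field F] {r : ℕ}

lemma orth_rep (x : ℙ F (Fin (r + 1) → F)) {w : Fin (r + 1) → F} (hw : w ≠ 0) :
    orthogonal x (mk F w hw) ↔ x.rep ⬝ᵥ w = 0 := by
  conv_lhs => rw [← mk_rep x]
  rfl

lemma polar_all (D : Finset (ℙ F (Fin (r + 1) → F))) (h : D.card ≤ r) :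
    ∃ w, ∀ x ∈ D, orthogonal x w := by
  obtain ⟨w, w1, w2⟩ := (Submodule.ne_bot_iff _).1 (LinearMap.ker_ne_bot_of_finrank_lt
    (f := Matrix.mulVecLin (Matrix.of fun x : D => x.1.rep)) (by simp; omega))
  exact ⟨mk F w w2, fun x hx => (orth_rep x w2).2 (congrFun w1 ⟨x, hx⟩)⟩

lemma polar_none [Finite F] (hq : r < Nat.card F) (D : Finset (ℙ F (Fin (r + 1) → F)))
    (h : D.card ≤ r) : ∃ w, ∀ x ∈ D, ¬ orthogonal x w := by
  obtain ⟨u, -, hu⟩ := Set.exists_of_ssubset (Submodule.iUnion_ssubset_of_forall_ne_top_of_card_lt D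
    (fun x => LinearMap.ker (dotProductBilin F F x.rep)) (fun x e => x.rep_nonzero
      (dotProduct_eq_zero _ fun w => LinearMap.mem_ker.1 (e.ge (Submodule.mem_top (x := w)))))
    (by rw [ENat.card_eq_coe_natCard]; exact_mod_cast h.trans_lt hq))
  simp only [Set.mem_iUnion, SetLike.mem_coe, LinearMap.mem_ker, dotProductBilin_apply_apply,
    not_exists] at hu
  by_cases e : u = 0
  · obtain ⟨w, -⟩ := polar_all (F := F) (r := r) ∅ (by simp)
    exact ⟨w, fun x hx _ => hu x hx (by simp [e])⟩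
  · exact ⟨mk F u e, fun x hx a => hu x hx ((orth_rep x e).1 a)⟩

/-- The standard vectors orthogonal to `p`. -/
def perp (p : Fin (r + 1) → F) (i j : Fin (r + 1)) : Fin (r + 1) → F :=
  Pi.single j (p i) - Pi.single i (p j)

lemma perp_dot (p w : Fin (r + 1) → F) (i j : Fin (r + 1)) :
    perp p i j ⬝ᵥ w = p i * w j - p j * w i := by
  simp [perp]

lemma polar_one (hr : 0 < r) (P : ℙ F (Fin (r + 1) → F)) :
    ∃ f : Fin r → ℙ F (Fin (r + 1) → F), (∀ w, (∀ j, orthogonal (f j) w) ↔ w = P) ∧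
      (orthogonal P P → ∃ j, f j = P) := by
  classical
  induction P with | h p hp =>
  obtain ⟨i, hi⟩ : ∃ i, p i ≠ 0 := Function.ne_iff.1 hp
  obtain ⟨m, hm⟩ : ∃ m : Fin r, p ⬝ᵥ p = 0 → p (i.succAbove m) ≠ 0 := by
    by_contra! a
    have := (a ⟨0, hr⟩).1
    simp [dotProduct, Fin.sum_univ_succAbove _ i, fun m => (a m).2, hi] at this
  let c : Fin r → Fin (r + 1) → F := fun j =>
    if j = m ∧ p ⬝ᵥ p = 0 then p else perp p i (i.succAbove j)
  have c0 : ∀ j, c j ≠ 0 := fun j => by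
    simp only [c]
    split_ifs
    · exact hp
    · exact fun e => hi (by simpa [perp] using congrFun e (i.succAbove j))
  refine ⟨fun j => mk F (c j) (c0 j), fun w => ⟨fun h => ?_, fun e j => ?_⟩,
    fun e => ⟨m, by simp [c, (orthogonal_mk hp hp).1 e]⟩⟩
  · induction w with | h w hw =>
    have a : ∀ j, ¬ (j = m ∧ p ⬝ᵥ p = 0) →
        p i * w (i.succAbove j) - p (i.succAbove j) * w i = 0 := fun j e => by
      simpa only [orthogonal_mk, c, if_neg e, perp_dot] using h j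
    have b : ∀ j, p i * w (i.succAbove j) - p (i.succAbove j) * w i = 0 := fun j => by
      by_cases e : j = m ∧ p ⬝ᵥ p = 0
      · have d : p ⬝ᵥ w = 0 := by simpa only [orthogonal_mk, c, if_pos e] using h j
        have z : p ⬝ᵥ (p i • w - w i • p) = 0 := by simp [d, e.2]
        rw [dotProduct, Fin.sum_univ_succAbove _ i, sum_eq_single m (fun n _ n1 => by
          simp [mul_comm (w i), a n fun h => n1 h.1]) (by simp)] at z
        simpa [hm e.2, mul_comm (w i), e.1] using z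
      · exact a j e
    refine (mk_eq_mk_iff' F _ _ hw hp).2 ⟨w i / p i, funext fun n => ?_⟩
    rcases eq_or_ne n i with rfl | e
    · simp [hi]
    · obtain ⟨j, rfl⟩ := Fin.exists_succAbove_eq e
      simp only [Pi.smul_apply, smul_eq_mul]
      field_simp
      linear_combination -b j
  · rw [e, orthogonal_mk]
    simp only [c]
    split_ifs with a
    · exact a.2
    · rw [perp_dot, mul_comm, sub_self]

variable [Finite F]

lemma ncard_points (S : Set (ℙ F (Fin (r + 1) → F))) (T : Set (Fin (r + 1) → F))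
    (h : ∀ Q ∈ S, ∀ a : F, a • Q.rep ∈ T) : S.ncard * (Nat.card F - 1) ≤ T.ncard := by
  rw [← Nat.card_units, ← Set.ncard_univ, ← Set.ncard_prod]
  refine Set.ncard_le_ncard_of_injOn (fun x => (x.2 : F) • x.1.rep) (fun x hx => h _ hx.1 _)
    fun x _ y _ e => ?_
  have a : x.1 = y.1 := by
    rw [← mk_rep x.1, ← mk_rep y.1, mk_eq_mk_iff]
    exact ⟨x.2⁻¹ * y.2, by rw [mul_smul, inv_smul_eq_iff]; exact e.symm⟩
  simp only [a] at e
  exact Prod.ext a (Units.ext (smul_left_injective F y.1.rep_nonzero e))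

lemma ncard_perp {p : Fin (r + 1) → F} (hp : p ≠ 0) :
    {v | v ⬝ᵥ p = 0}.ncard ≤ Nat.card F ^ r := by
  obtain ⟨i, hi⟩ : ∃ i, p i ≠ 0 := Function.ne_iff.1 hp
  refine (Set.ncard_le_ncard_of_injOn (fun v j => v (i.succAbove j)) (t := Set.univ)
    (fun _ _ => trivial) fun v hv w hw e => funext fun n => ?_).trans
    (by simp [Set.ncard_univ, Nat.card_pi])
  have a : ∀ j, v (i.succAbove j) = w (i.succAbove j) := congrFun e
  rcases eq_or_ne n i with rfl | b
  · have c : v ⬝ᵥ p = w ⬝ᵥ p := hv.trans hw.symm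
    simpa [dotProduct, Fin.sum_univ_succAbove _ n, a, hi] using c
  · obtain ⟨j, rfl⟩ := Fin.exists_succAbove_eq b
    exact a j

lemma ncard_iso {p e : Fin (r + 1) → F} (h1 : e ⬝ᵥ p = 0) (h2 : e ⬝ᵥ e ≠ 0) :
    {v | v ⬝ᵥ p = 0 ∧ v ⬝ᵥ v = 0}.ncard * Nat.card F ≤ 2 * {v | v ⬝ᵥ p = 0}.ncard := by
  classical
  have := Fintype.ofFinite F
  have a := card_le_mul_card_image_of_maps_to (f := fun x : (Fin (r + 1) → F) × F => x.1 + x.2 • e)
    (s := (univ.filter fun v => v ⬝ᵥ p = 0 ∧ v ⬝ᵥ v = 0) ×ˢ univ)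
    (t := univ.filter fun v => v ⬝ᵥ p = 0) (fun x hx => by simp_all) 2 fun z _ => by
      have k : ∀ x ∈ ((univ.filter fun v => v ⬝ᵥ p = 0 ∧ v ⬝ᵥ v = 0) ×ˢ univ).filter
          fun x : (Fin (r + 1) → F) × F => x.1 + x.2 • e = z, x.1 = z - x.2 • e ∧
          e ⬝ᵥ e * x.2 ^ 2 - 2 * (z ⬝ᵥ e) * x.2 + z ⬝ᵥ z = 0 := fun x hx => by
        simp only [mem_filter, mem_product, mem_univ, true_and, and_true] at hx
        have b : x.1 = z - x.2 • e := eq_sub_of_add_eq hx.2
        have c := hx.1.2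
        rw [b] at c
        simp only [sub_dotProduct, dotProduct_sub, smul_dotProduct, dotProduct_smul, smul_eq_mul,
          dotProduct_comm e z] at c
        exact ⟨b, by linear_combination c⟩
      by_contra! b
      obtain ⟨x, y, w, hx, hy, hw, n1, n2, n3⟩ := two_lt_card_iff.1 b
      have n : ∀ x y : (Fin (r + 1) → F) × F, x.1 = z - x.2 • e → y.1 = z - y.2 • e → x ≠ y →
          x.2 - y.2 ≠ 0 := fun x y a b c d =>
        c (Prod.ext (by rw [a, b, sub_eq_zero.1 d]) (sub_eq_zero.1 d))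
      obtain ⟨x1, x2⟩ := k x hx
      obtain ⟨y1, y2⟩ := k y hy
      obtain ⟨w1, w2⟩ := k w hw
      refine mul_ne_zero (mul_ne_zero (mul_ne_zero h2 (n x y x1 y1 n1)) (n x w x1 w1 n2))
        (n y w y1 w1 n3) ?_
      linear_combination (y.2 - w.2) * x2 - (x.2 - w.2) * y2 + (x.2 - y.2) * w2
  simpa [Set.ncard_eq_toFinset_card'] using a

lemma polar_deg (hr : 0 < r) (hF : ∀ a b : F, a ≠ 0 → a ^ 2 + b ^ 2 ≠ 0)
    (P : ℙ F (Fin (r + 1) → F)) :
    ({Q | orthogonal Q P}.ncard + {Q | orthogonal Q P ∧ orthogonal Q Q}.ncard) *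
      ((Nat.card F - 1) * Nat.card F) ≤ Nat.card F ^ r * (Nat.card F + 2) := by
  induction P with | h p hp =>
  obtain ⟨i, hi⟩ : ∃ i, p i ≠ 0 := Function.ne_iff.1 hp
  have a := ncard_points {Q | orthogonal Q (mk F p hp)} {v | v ⬝ᵥ p = 0} fun Q h a => by
    simp [(orth_rep Q hp).1 h]
  have b := ncard_points {Q | orthogonal Q (mk F p hp) ∧ orthogonal Q Q}
    {v | v ⬝ᵥ p = 0 ∧ v ⬝ᵥ v = 0} fun Q h a => by
      simp [(orth_rep Q hp).1 h.1, (orth_rep Q Q.rep_nonzero).1 (by simpa using h.2)]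
  have c := ncard_perp hp
  have d := ncard_iso (p := p) (e := perp p i (i.succAbove ⟨0, hr⟩))
    (by rw [perp_dot, mul_comm, sub_self]) (by
      rw [perp_dot]
      simpa [perp, sq] using hF _ (p (i.succAbove ⟨0, hr⟩)) hi)
  nlinarith [Nat.mul_le_mul_right (Nat.card F) a, Nat.mul_le_mul_right (Nat.card F) b,
    Nat.mul_le_mul_right (Nat.card F) c]

lemma card_points : Nat.card F ^ r ≤ Nat.card (ℙ F (Fin (r + 1) → F)) := by
  have a := Projectivization.card' F (Fin (r + 1) → F)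
  have b : 1 < Nat.card F := Finite.one_lt_card
  rw [Nat.card_pi, prod_const, card_univ, Fintype.card_fin, pow_succ] at a
  obtain ⟨q, e⟩ := Nat.exists_eq_add_of_lt b
  rw [e] at a ⊢
  by_contra! c
  have := Nat.mul_le_mul_right (1 + q) c.le
  have := Nat.one_le_pow r (1 + q + 1) (by omega)
  simp only [Nat.add_sub_cancel] at a
  nlinarith

end Pool.Agent.P.MP_940262_co
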