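import Pool.Agent.P.MP_940262_co.Polar

/-! Large critical graphs in which few vertices are far from a given vertex. -/

namespace Pool.Agent.P.MP_940262_co

open SimpleGraph Filter Topology Projectivization
open scoped LinearAlgebra.Projectivization

/-- A block of order `n ≥ N` with at most `c * n ^ (1 - 1 / r)` vertices far from any vertex. -/
def Has (r d : ℕ) (c : ℝ) (N : ℕ) : Prop :=
  ∃ (V : Type) (_ : Finite V) (G : SimpleGraph V) (M : ℕ), Blk r d G M ∧ N ≤ Nat.card V ∧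
    (M : ℝ) ≤ c * (Nat.card V : ℝ) ^ (1 - 1 / r : ℝ)

variable {r d e N : ℕ} {c c' : ℝ}

lemma Has.mul (a : Has r d c N) (b : Has r e c' 1) : Has r (d + e) (c * c') N := by
  obtain ⟨V, _, G, M, a1, a2, a3⟩ := a
  obtain ⟨W, _, H, L, b1, b2, b3⟩ := b
  refine ⟨V × W, inferInstance, G □ H, M * L, a1.prod b1, ?_, ?_⟩
  · rw [Nat.card_prod]
    nlinarith
  · rw [Nat.card_prod, Nat.cast_mul, Nat.cast_mul, Real.mul_rpow (by positivity) (by positivity),
      mul_mul_mul_comm]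
    exact mul_le_mul a3 b3 (by positivity) ((Nat.cast_nonneg _).trans a3)

lemma expo_pos (hr : 2 ≤ r) : (0 : ℝ) < 1 - 1 / r := by
  have : (2 : ℝ) ≤ r := by exact_mod_cast hr
  rw [sub_pos, div_lt_one] <;> linarith

lemma has_top (r : ℕ) : Has r 1 (r / (r + 1) ^ (1 - 1 / r : ℝ)) 1 := by
  refine ⟨Fin (r + 1), inferInstance, ⊤, r, blk_top r, by simp, le_of_eq ?_⟩
  rw [Nat.card_fin, Nat.cast_succ, div_mul_cancel₀ _ (by positivity)]

lemma rpow_expo (hr : 2 ≤ r) {x : ℝ} (hx : 0 ≤ x) : (x ^ r) ^ (1 - 1 / r : ℝ) = x ^ (r - 1) := by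
  have : (2 : ℝ) ≤ r := by exact_mod_cast hr
  rw [← Real.rpow_natCast, ← Real.rpow_mul hx, ← Real.rpow_natCast, Nat.cast_sub (by omega)]
  congr 1
  field_simp
  simp

lemma has_two (hr : 2 ≤ r) (hc : 1 < c) (N : ℕ) : Has r 2 c N := by
  obtain ⟨p, p1, p2, p3⟩ := Nat.forall_exists_prime_gt_and_modEq
    (r + N + ⌈(c + 2) / (c - 1)⌉₊) (q := 4) (a := 3) (by simp) (by norm_num)
  have := Fact.mk p2
  have hF : ∀ a b : ZMod p, a ≠ 0 → a ^ 2 + b ^ 2 ≠ 0 := fun a b h e =>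
    ZMod.mod_four_ne_three_of_sq_eq_neg_sq h (eq_neg_of_add_eq_zero_left e) p3
  have n1 := (card_points (F := ZMod p) (r := r)).trans (card_le_dup orthogonal)
  let g := fun P : ℙ (ZMod p) (Fin (r + 1) → ZMod p) =>
    {Q | orthogonal Q P}.ncard + {Q | orthogonal Q P ∧ orthogonal Q Q}.ncard
  obtain ⟨P0, -⟩ := polar_all (F := ZMod p) (r := r) ∅ (by simp)
  have : Nonempty _ := ⟨P0⟩
  obtain ⟨P, hP⟩ := Finite.exists_max g
  have n2 := polar_deg (by omega) hF P
  rw [Nat.card_zmod] at n1 n2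
  refine ⟨_, inferInstance, _, g P, blk_dup orthogonal hr (fun _ _ => orthogonal_comm.1) polar_all
    (polar_none (by rw [Nat.card_zmod]; omega)) (polar_one (by omega)) hP, ?_, ?_⟩
  · exact le_trans (le_trans (by omega) (Nat.le_self_pow (by omega) p)) n1
  · have a : (c + 2) / (c - 1) ≤ p := (Nat.le_ceil _).trans (by exact_mod_cast (by omega))
    rw [div_le_iff₀ (by linarith)] at a
    have b : (1 : ℝ) < p := by exact_mod_cast p2.one_lt
    have f : (g P : ℝ) * ((p - 1) * p) ≤ p ^ (r - 1) * p * (p + 2) := by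
      rw [← pow_succ, Nat.sub_add_cancel (by omega), ← Nat.cast_one, ← Nat.cast_sub p2.one_le]
      exact_mod_cast n2
    refine le_trans ?_ (mul_le_mul_of_nonneg_left (Real.rpow_le_rpow (x := (p : ℝ) ^ r)
      (by positivity) (by exact_mod_cast n1) (expo_pos hr).le) (by linarith))
    rw [rpow_expo hr (by positivity)]
    refine le_of_mul_le_mul_right (f.trans ?_) (show 0 < ((p : ℝ) - 1) * p by nlinarith)
    have h : (0 : ℝ) < p ^ (r - 1) * p := by positivity
    nlinarith [mul_le_mul_of_nonneg_left (show (p : ℝ) + 2 ≤ c * (p - 1) by linarith) h.le]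

lemma has_even (hr : 2 ≤ r) (j N : ℕ) : ∀ c : ℝ, 1 < c → Has r (2 * j + 2) c N := by
  induction j with
  | zero => exact fun c hc => has_two hr hc N
  | succ j h =>
    intro c hc
    have a : 1 < √c := Real.lt_sqrt_of_sq_lt (by simpa using hc)
    simpa [mul_add, Real.mul_self_sqrt (zero_le_one.trans hc.le)] using
      (h _ a).mul (has_two hr a 1)

lemma has_all (hr : 2 ≤ r) {k : ℕ} (hk : 1 ≤ k) (N : ℕ)
    (hc : (if Odd k then 1 else r / (r + 1) ^ (1 - 1 / r : ℝ) : ℝ) < c) : Has r (k + 1) c N := by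
  split_ifs at hc with h
  · obtain ⟨j, rfl⟩ := h
    exact has_even hr j N c hc
  · obtain ⟨j, rfl⟩ : ∃ j, k = 2 * j + 2 := ⟨k / 2 - 1, by have := Nat.not_odd_iff.1 h; omega⟩
    have a : (0 : ℝ) < r / (r + 1) ^ (1 - 1 / r : ℝ) := by positivity
    simpa only [div_mul_cancel₀ _ a.ne'] using
      (has_even hr j N _ ((one_lt_div a).2 hc)).mul (has_top r)

/-- The blocks are critical graphs. -/
lemma Has.crit {k : ℕ} (h : Has r (k + 1) c N) : ∃ (V : Type) (_ : Finite V) (G : SimpleGraph V),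
    G.Connected ∧ (∀ v, IsKCriticalVertex G k v) ∧ kDomNumber G k = r + 1 ∧ N ≤ Nat.card V ∧
      (Nat.card V : ℝ) - minKDegree G k ≤ c * (Nat.card V : ℝ) ^ (1 - 1 / r : ℝ) + 1 := by
  obtain ⟨V, _, G, M, a1, a2, a3⟩ := h
  obtain ⟨b1, b2, b3, b4⟩ := a1.main
  have : (Nat.card V : ℝ) ≤ minKDegree G k + 1 + M := by exact_mod_cast b4
  exact ⟨V, inferInstance, G, b1, b2, b3, a2, by linarith⟩

/-- The lower bound for every graph with `k`-domination number above `r`. -/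
lemma lower {V : Type} [Finite V] {G : SimpleGraph V} {k : ℕ} (hr : 2 ≤ r)
    (h : r < kDomNumber G k) :
    (Nat.card V : ℝ) ^ (1 - 1 / r : ℝ) + 1 ≤ Nat.card V - minKDegree G k := by
  have a := count h
  obtain ⟨v⟩ : Nonempty V := by_contra fun e => by
    simpa using h.trans_le (kDomNumber_le G (D := ∅) fun v => (e ⟨v⟩).elim)
  have hV : 1 ≤ Nat.card V := Nat.card_pos_iff.2 ⟨⟨v⟩, inferInstance⟩
  have b := kDegree_add G k v
  have c := min_le G k v
  obtain ⟨m, e⟩ : ∃ m, Nat.card V = minKDegree G k + 1 + m :=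
    Nat.exists_eq_add_of_le (by omega)
  rw [show Nat.card V - 1 - minKDegree G k = m by omega, ← Nat.sub_add_cancel (show 1 ≤ r by omega),
    pow_succ', Nat.sub_add_cancel (by omega)] at a
  have f : (Nat.card V : ℝ) ^ (r - 1) ≤ (m : ℝ) ^ r := by
    exact_mod_cast Nat.le_of_mul_le_mul_left a hV
  rw [← rpow_expo hr (by positivity), ← Real.rpow_pow_comm (by positivity),
    pow_le_pow_iff_left₀ (by positivity) (by positivity) (by omega)] at f
  have g : (Nat.card V : ℝ) = minKDegree G k + 1 + m := by exact_mod_cast e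
  linarith

lemma large {β : ℝ} (hβ : 0 < β) (C : ℝ) : ∃ N : ℕ, ∀ n : ℕ, N ≤ n → C < (n : ℝ) ^ β :=
  eventually_atTop.1 (((tendsto_rpow_atTop hβ).comp tendsto_natCast_atTop_atTop).eventually_gt_atTop C)

lemma upper (hr : 2 ≤ r) {k : ℕ} (hk : 1 ≤ k) (N : ℕ)
    (hc : (if Odd k then 1 else r / (r + 1) ^ (1 - 1 / r : ℝ) : ℝ) < c) :
    ∃ (V : Type) (_ : Finite V) (G : SimpleGraph V),
      G.Connected ∧ (∀ v, IsKCriticalVertex G k v) ∧ kDomNumber G k = r + 1 ∧ N ≤ Nat.card V ∧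
        Nat.card V ≤ (minKDegree G k + 1) * r ∧
        (Nat.card V : ℝ) - minKDegree G k ≤ c * (Nat.card V : ℝ) ^ (1 - 1 / r : ℝ) := by
  obtain ⟨b, b1, b2⟩ := exists_between hc
  obtain ⟨N1, h1⟩ := large (expo_pos hr) (1 / (c - b))
  obtain ⟨N2, h2⟩ := large (β := 1 / r) (by positivity) (2 * c)
  obtain ⟨V, _, G, a1, a2, a3, a4, a5⟩ := (has_all hr hk (N + N1 + N2 + 1) b1).crit
  have c1 := h1 (Nat.card V) (by omega)
  have c2 := h2 (Nat.card V) (by omega)
  have c3 : (0 : ℝ) < Nat.card V := by exact_mod_cast (by omega)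
  rw [div_lt_iff₀ (by linarith)] at c1
  have c4 : (Nat.card V : ℝ) - minKDegree G k ≤ c * (Nat.card V : ℝ) ^ (1 - 1 / r : ℝ) := by
    linarith
  refine ⟨V, inferInstance, G, a1, a2, a3, by omega, ?_, c4⟩
  have c5 := mul_le_mul_of_nonneg_right c2.le (Real.rpow_nonneg c3.le (1 - 1 / r))
  rw [← Real.rpow_add c3, add_sub_cancel, Real.rpow_one] at c5
  have c6 : Nat.card V ≤ 2 * minKDegree G k := by
    exact_mod_cast (by linarith : (Nat.card V : ℝ) ≤ 2 * minKDegree G k)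
  nlinarith

end Pool.Agent.P.MP_940262_co
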