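import Pool.Agent.P.MP_940262_co.Part

/-! A graph of diameter three on a product whose pairs at distance three are prescribed. -/

namespace Pool.Agent.P.MP_940262_co

open SimpleGraph Finset

section
variable {V W I K : Type} (F : V → V → Prop) (E : W → W → Prop) (b : V → I) (c : W → K)
  (l : W → Finset V)

/-- The rule that decides which of two conflicting edges is kept. -/
def Rule (u x : V) (w z : W) : Prop :=
  w = z ∨ u ≠ x ∧ (u ∈ l w ∨ u ∈ l z) ∧ (x ∈ l w ∨ x ∈ l z)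

/-- A step inside a block of the first factor. -/
def StepL (p q : V × W) : Prop :=
  b p.1 = b q.1 ∧ ¬ E p.2 q.2 ∧ ∀ z, c z = c p.2 → E z q.2 → ¬ Rule l p.1 q.1 p.2 z

/-- A step inside a block of the second factor. -/
def StepR (p q : V × W) : Prop :=
  c p.2 = c q.2 ∧ ¬ F p.1 q.1 ∧ ∀ v, b v = b p.1 → F v q.1 → Rule l p.1 v p.2 q.2

/-- Equal or adjacent. -/
def Close (p q : V × W) : Prop :=
  StepL E b c l p q ∧ StepL E b c l q p ∨ StepR F b c l p q ∧ StepR F b c l q p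

end

lemma exists_three {V W I K : Type} [Fintype V] [Fintype W] [DecidableEq V] [DecidableEq W]
    [DecidableEq I] [DecidableEq K] {F : V → V → Prop} {E : W → W → Prop} [DecidableRel F]
    [DecidableRel E] {b : V → I} {c : W → K} {l : W → Finset V} {ρ : ℕ}
    (sF : ∀ x y, F x y → F y x) (sE : ∀ x y, E x y → E y x)
    (iF : ∀ x y, b x = b y → ¬ F x y) (iE : ∀ x y, c x = c y → ¬ E x y)
    (fF : ∀ x y, #{u | b u = b x ∧ F u y} ≤ ρ) (fE : ∀ x y, #{u | c u = c x ∧ E u y} ≤ ρ)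
    (hl : ∀ w, #(l w) ≤ 2 * ρ + 2)
    (gF : ∀ x (S : Finset V), #S ≤ ρ + (2 * ρ + 2) * (2 * ρ + 2) → ∃ u, b u = b x ∧ u ∉ S)
    (gE : ∀ y (T : Finset V) (S : Finset W), #T ≤ 2 * ρ + 2 → #S ≤ ρ →
      ∃ w, c w = c y ∧ T ⊆ l w ∧ w ∉ S) :
    ∃ J : SimpleGraph (V × W), (∀ p q, J.edist p q ≤ (3 : ℕ)) ∧
      ∀ p q, J.edist p q = (3 : ℕ) ↔ F p.1 q.1 ∧ E p.2 q.2 := by
  have sN : ∀ p q, Close F E b c l p q → Close F E b c l q p := fun p q h =>
    h.imp And.symm And.symm
  let J : SimpleGraph (V × W) := ⟨fun p q => p ≠ q ∧ Close F E b c l p q,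
    ⟨fun p q h => ⟨h.1.symm, sN p q h.2⟩⟩, ⟨fun p h => h.1 rfl⟩⟩
  have n1 : ∀ p q, Close F E b c l p q → J.edist p q ≤ 1 := fun p q h =>
    edist_le_one_iff_adj_or_eq.2 (or_iff_not_imp_right.2 fun e => ⟨e, h⟩)
  have n2 : ∀ p m q, Close F E b c l p m → Close F E b c l m q → J.edist p q ≤ 2 := fun p m q h g =>
    J.edist_triangle.trans ((add_le_add (n1 p m h) (n1 m q g)).trans one_add_one_eq_two.le)
  have c2 : ∀ x y y', ¬ E y y' → Close F E b c l (x, y) (x, y') := fun x y y' h =>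
    Or.inl ⟨⟨rfl, h, fun z _ e a => a.elim (fun a : y = z => h (a ▸ e)) fun a => a.1 rfl⟩,
      rfl, mt (sE _ _) h, fun z _ e a => a.elim
        (fun a : y' = z => h (sE _ _ (a ▸ e))) fun a => a.1 rfl⟩
  have c1 : ∀ x x' y, ¬ F x x' → Close F E b c l (x, y) (x', y) := fun x x' y h =>
    Or.inr ⟨⟨rfl, h, fun _ _ _ => Or.inl rfl⟩, rfl, mt (sF _ _) h, fun _ _ _ => Or.inl rfl⟩
  have k : ∀ p m q, StepL E b c l m p → StepR F b c l m q → F p.1 q.1 → E p.2 q.2 → False :=
    fun p m q h g a e => h.2.2 q.2 g.1.symm (sE _ _ e) (g.2.2 p.1 h.1.symm a)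
  have f : ∀ p m q, F p.1 q.1 → E p.2 q.2 → Close F E b c l p m → ¬ Close F E b c l m q := by
    rintro p m q a e (h | h) (g | g)
    exacts [iF _ _ (h.1.1.trans g.1.1) a, k p m q h.2 g.1 a e,
      k q m p g.1 h.2 (sF _ _ a) (sE _ _ e), iE _ _ (h.1.1.trans g.1.1) e]
  have r : ∀ p, Close F E b c l p p := fun p => c1 _ _ _ (iF _ _ rfl)
  have A : ∀ p q, ¬ (F p.1 q.1 ∧ E p.2 q.2) → J.edist p q ≤ 2 := by
    rintro ⟨x, y⟩ ⟨x', y'⟩ h
    by_cases a : F x x' <;> by_cases e : E y y'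
    · exact (h ⟨a, e⟩).elim
    · obtain ⟨u, u1, u2⟩ := gF x ((univ.filter fun u => b u = b x ∧ F u x') ∪ (insert y (insert y'
        ((univ.filter fun z => c z = c y ∧ E z y') ∪
          univ.filter fun z => c z = c y' ∧ E z y))).biUnion l) (by
          refine (card_union_le _ _).trans (add_le_add (fF _ _)
            ((card_biUnion_le_card_mul _ _ _ fun w _ => hl w).trans (Nat.mul_le_mul_right _ ?_)))
          refine (card_insert_le _ _).trans (Nat.succ_le_succ ((card_insert_le _ _).trans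
            (Nat.succ_le_succ ((card_union_le _ _).trans ?_))))
          exact two_mul ρ ▸ add_le_add (fE _ _) (fE _ _))
      simp only [mem_union, mem_filter, mem_univ, true_and, mem_biUnion, mem_insert, not_or,
        not_exists, not_and] at u2
      refine n2 _ (u, y') _ (Or.inl ⟨⟨u1.symm, e, fun z z1 z2 g => ?_⟩, u1, mt (sE _ _) e,
        fun z z1 z2 g => ?_⟩) (c1 _ _ _ (u2.1 u1))
      · rcases g with g | ⟨-, -, g | g⟩
        exacts [e ((show y = z from g) ▸ z2), u2.2 y (by simp) g, u2.2 z (by tauto) g]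
      · rcases g with g | ⟨-, g | g, -⟩
        exacts [e (sE _ _ ((show y' = z from g) ▸ z2)), u2.2 y' (by simp) g, u2.2 z (by tauto) g]
    · obtain ⟨w, w1, w2, w3⟩ := gE y' (insert x (insert x'
        ((univ.filter fun v => b v = b x ∧ F v x') ∪ univ.filter fun v => b v = b x' ∧ F v x)))
        {z | c z = c y' ∧ E z y} (by
          refine (card_insert_le _ _).trans (Nat.succ_le_succ ((card_insert_le _ _).trans
            (Nat.succ_le_succ ((card_union_le _ _).trans ?_))))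
          exact two_mul ρ ▸ add_le_add (fF _ _) (fF _ _)) (fE _ _)
      simp only [mem_filter, mem_univ, true_and, not_and] at w3
      refine n2 _ (x, w) _ (c2 _ _ _ (mt (sE _ _) (w3 w1))) (Or.inr ⟨⟨w1, a, fun v v1 v2 => ?_⟩,
        w1.symm, mt (sF _ _) a, fun v v1 v2 => ?_⟩)
      · exact Or.inr ⟨fun g : x = v => a (g ▸ v2), Or.inl (w2 (by simp)),
          Or.inl (w2 (by simp [show b v = b x from v1, show F v x' from v2]))⟩
      · exact Or.inr ⟨fun g : x' = v => a (sF _ _ (g ▸ v2)), Or.inr (w2 (by simp)),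
          Or.inr (w2 (by simp [show b v = b x' from v1, show F v x from v2]))⟩
    · exact n2 _ (x, y') _ (c2 _ _ _ e) (c1 _ _ _ a)
  have C : ∀ p q, J.edist p q ≤ (3 : ℕ) := fun p q => by
    obtain ⟨w, w1, -, w3⟩ := gE q.2 ∅ {z | c z = c q.2 ∧ E z p.2} (by simp) (fE _ _)
    simp only [mem_filter, mem_univ, true_and, not_and] at w3
    refine (J.edist_triangle (v := (p.1, w))).trans ((add_le_add
      (n1 _ _ (c2 _ _ _ (mt (sE _ _) (w3 w1)))) (A _ q fun h => iE _ _ w1 h.2)).trans ?_)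
    norm_num
  refine ⟨J, C, fun p q => ⟨fun h => by_contra fun e => ?_, fun h => (C p q).antisymm ?_⟩⟩
  · exact absurd (h ▸ A p q e) (by norm_num)
  · refine Order.add_one_le_of_lt ((two_lt_edist_iff (G := J)).2 ⟨fun e => iF _ _ (by rw [e]) h.1,
      fun e => f p p q h.1 h.2 (r p) e.2, Set.eq_empty_of_forall_notMem fun m e => ?_⟩)
    exact f p m q h.1 h.2 e.1.2 (sN _ _ e.2.2)

end Pool.Agent.P.MP_940262_co
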